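import Pool.Agent.H252.EL.Iface

/-!
# Non-isomorphism of the limit algebras (task EL-NISO, helper921 for helper252)
-/

set_option autoImplicit false

noncomputable section

namespace Pool.Agent.H921.ELNISO

open Filter Topology
open scoped ENNReal NNReal Matrix.Norms.L2Operator ComplexOrder
open Pool.Agent.TH249 (Prj K0 Eqv IsPrj)
open Pool.Agent.H188R3 (IsLim norm_map_le')
open Pool.Agent.H252.EL

/-- the pullback of a tracial state by an isomorphism -/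
theorem pull {A B : Type} [CStarAlgebra A] [CStarAlgebra B] (Ψ : A ≃⋆ₐ[ℂ] B)
    {τ : WeakDual ℂ B} (hτ : τ ∈ TracialStates B) :
    ∃ σ ∈ TracialStates A, ∀ x, σ x = τ (Ψ x) := by
  obtain ⟨h1, h2, h3⟩ := hτ
  obtain ⟨F, hF⟩ : ∃ F : A →⋆ₐ[ℂ] B, ∀ x, F x = Ψ x := ⟨(Ψ : A →⋆ₐ[ℂ] B), fun x => rfl⟩
  obtain ⟨G, hG⟩ : ∃ G : A →L[ℂ] B, ∀ x, G x = Ψ x := by
    refine ⟨LinearMap.mkContinuous (F.toAlgHom.toLinearMap) 1 ?_, fun x => hF x⟩
    intro x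
    rw [one_mul]
    exact norm_map_le' F x
  obtain ⟨T, hT⟩ : ∃ T : B →L[ℂ] ℂ, ∀ x, T x = τ x := ⟨WeakDual.toStrongDual τ, fun x => rfl⟩
  obtain ⟨σ, hσ⟩ : ∃ σ : WeakDual ℂ A, ∀ x, σ x = τ (Ψ x) := by
    refine ⟨StrongDual.toWeakDual (T.comp G), fun x => ?_⟩
    change T (G x) = τ (Ψ x)
    rw [hT, hG]
  refine ⟨σ, ⟨?_, ?_, ?_⟩, hσ⟩
  · rw [hσ, map_one, h1]
  · intro x
    rw [hσ, map_mul, map_star]
    exact h2 (Ψ x)
  · intro x y
    rw [hσ, hσ, map_mul Ψ x y, map_mul Ψ y x]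
    exact h3 _ _

theorem norm_iso {A B : Type} [CStarAlgebra A] [CStarAlgebra B] (Ψ : A ≃⋆ₐ[ℂ] B) (x : A) :
    ‖Ψ x‖ ≤ ‖x‖ := norm_map_le' (Ψ : A →⋆ₐ[ℂ] B) x

theorem cle_map {A B : Type} [CStarAlgebra A] [CStarAlgebra B] (Ψ : A ≃⋆ₐ[ℂ] B) {a b : A}
    (h : CLE a b) : CLE (Ψ a) (Ψ b) := by
  intro ε hε
  obtain ⟨v, hv⟩ := h ε hε
  refine ⟨Ψ v, lt_of_le_of_lt ?_ hv⟩
  rw [← map_star, ← map_mul, ← map_mul, ← map_sub]
  exact norm_iso Ψ _

theorem proj_map {A B : Type} [CStarAlgebra A] [CStarAlgebra B] (Ψ : A ≃⋆ₐ[ℂ] B) {a : A}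
    (h : IsStarProjection a) : IsStarProjection (Ψ a) := by
  refine ⟨?_, ?_⟩
  · show Ψ a * Ψ a = Ψ a
    rw [← map_mul, h.isIdempotentElem.eq]
  · show star (Ψ a) = Ψ a
    rw [← map_star, h.isSelfAdjoint.star_eq]

/-- transport of the invariant -/
theorem wit_map {A B : Type} [CStarAlgebra A] [CStarAlgebra B] (Ψ : A ≃⋆ₐ[ℂ] B) {e : A} {s : ℝ}
    (h : Wit A e s) : Wit B (Ψ e) s := by
  obtain ⟨x, z, b, hx, hz, ⟨y, hy⟩, ⟨y', hy'⟩, h1, h2, h3, h4⟩ := h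
  have hs : ∀ w : A, Ψ.symm (Ψ w) = w := fun w => Ψ.symm_apply_apply w
  refine ⟨Ψ x, Ψ z, Ψ b, proj_map Ψ hx, proj_map Ψ hz, ⟨Ψ y, ?_⟩, ⟨Ψ y', ?_⟩, cle_map Ψ h1,
    ?_, ?_, ?_⟩
  · rw [hy, map_mul, map_star]
  · rw [← map_star, ← map_mul, ← hy', map_sub, map_one]
  · intro τ hτ he
    obtain ⟨σ, hσ, hσ'⟩ := pull Ψ hτ
    have := h2 σ hσ (by rw [hσ']; exact he)
    rw [hσ', hσ'] at this
    exact this
  · intro τ hτ he
    obtain ⟨σ, hσ, hσ'⟩ := pull Ψ hτ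
    have := h3 σ hσ (by rw [hσ']; exact he)
    rw [hσ', hσ'] at this
    exact this
  · intro h
    apply h4
    have := cle_map Ψ.symm h
    rw [hs, hs] at this
    exact this

/-- the invariant depends only on the values of the traces at the marker -/
theorem wit_congr {B : Type} [CStarAlgebra B] {e e' : B} {s : ℝ}
    (he : ∀ τ ∈ TracialStates B, (τ e').re = (τ e).re) (h : Wit B e s) : Wit B e' s := by
  obtain ⟨x, z, b, hx, hz, hy, hy', h1, h2, h3, h4⟩ := h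
  refine ⟨x, z, b, hx, hz, hy, hy', h1, fun τ hτ h5 => h2 τ hτ ?_, fun τ hτ h5 => h3 τ hτ ?_, h4⟩
  · rw [← he τ hτ]; exact h5
  · rw [← he τ hτ]; exact h5

theorem conv_aux {w a b : ℝ} (h3 : 1 / 4 ≤ w) (h4 : w ≤ 3 / 4) (ha : 0 < a) (hb : 0 < b)
    (h : (2 * w - 1 / 2) * a + (3 / 2 - 2 * w) * b = 0) : False := by
  have e1 : 0 ≤ (2 * w - 1 / 2) * a := mul_nonneg (by linarith) ha.le
  have e2 : 0 ≤ (3 / 2 - 2 * w) * b := mul_nonneg (by linarith) hb.le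
  have e3 : (2 * w - 1 / 2) * a = 0 := by linarith
  have e4 : (3 / 2 - 2 * w) * b = 0 := by linarith
  rcases mul_eq_zero.1 e3 with h5 | h5
  · rcases mul_eq_zero.1 e4 with h6 | h6
    · linarith
    · linarith
  · linarith

theorem proj_one (D : Sys) (i : ℕ) (b : Bool) : IsStarProjection (D.one i b) := by
  refine ⟨?_, ?_⟩
  · show D.one i b * D.one i b = D.one i b
    ext1 z
    show (if z.1 = b then (1 : Matrix (Fin (D.n i)) (Fin (D.n i)) ℂ) else 0) *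
      (if z.1 = b then (1 : Matrix (Fin (D.n i)) (Fin (D.n i)) ℂ) else 0) =
      (if z.1 = b then (1 : Matrix (Fin (D.n i)) (Fin (D.n i)) ℂ) else 0)
    split_ifs
    · rw [mul_one]
    · rw [mul_zero]
  · show star (D.one i b) = D.one i b
    ext1 z
    show star (if z.1 = b then (1 : Matrix (Fin (D.n i)) (Fin (D.n i)) ℂ) else 0) =
      (if z.1 = b then (1 : Matrix (Fin (D.n i)) (Fin (D.n i)) ℂ) else 0)
    split_ifs
    · rw [star_one]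
    · rw [star_zero]

theorem proj_j {D : Sys} {L : Type} [CStarAlgebra L] (j : ∀ i, D.A i →⋆ₐ[ℂ] L) (i : ℕ) (b : Bool) :
    IsStarProjection (j i (D.one i b)) := by
  have h := proj_one D i b
  refine ⟨?_, ?_⟩
  · show j i (D.one i b) * j i (D.one i b) = j i (D.one i b)
    rw [← map_mul, h.isIdempotentElem.eq]
  · show star (j i (D.one i b)) = j i (D.one i b)
    rw [← map_star, h.isSelfAdjoint.star_eq]

/-- existence of the extreme traces -/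
theorem ext_trace (hEXT : S_EXT) {D : Sys} (hD : D.Fine) {L : Type} [CStarAlgebra L]
    {j : ∀ i, D.A i →⋆ₐ[ℂ] L} (hL : IsLim D.φ j) (b : Bool) :
    ∃ τ ∈ TracialStates L, (τ (j 0 (D.one 0 b))).re = 3 / 4 := by
  obtain ⟨τ, hτ, -, h⟩ := hEXT D hD L j hL (fun k => k) (fun k => ⟨b, fun _ => 0⟩) strictMono_id
  exact ⟨τ, hτ, h b fun _ => rfl⟩

theorem s_NISO : S_NISO := by
  intro hEX hMASS hEXT hPRJ hRNK hK0 D D' hD hD' L _ j hL L' _ j' hL' s hW hN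
  refine ⟨fun Φ => hN ?_⟩
  have hf : IsStarProjection (Φ (j 0 (D.one 0 false))) := proj_map Φ (proj_j j 0 false)
  obtain ⟨Θ, -, -, hΘ⟩ := hK0 hEX hMASS hEXT hPRJ hRNK D' hD' L' j' hL'
  obtain ⟨a, ha⟩ : ∃ a : ℝ, a = ((Θ (K0.cls (Prj.of _ hf))).1 : ℝ) := ⟨_, rfl⟩
  obtain ⟨b, hb⟩ : ∃ b : ℝ, b = ((Θ (K0.cls (Prj.of _ hf))).2 : ℝ) := ⟨_, rfl⟩
  -- the values of the traces at `f`
  have hval : ∀ τ ∈ TracialStates L', (τ (Φ (j 0 (D.one 0 false)))).re =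
      (2 * (τ (j' 0 (D'.one 0 true))).re - 1 / 2) * a +
        (3 / 2 - 2 * (τ (j' 0 (D'.one 0 true))).re) * b := by
    intro τ hτ
    have h1 := hΘ τ hτ (Prj.of _ hf)
    rw [← ha, ← hb] at h1
    have h2 : trM τ (Prj.of _ hf).mat = τ (Φ (j 0 (D.one 0 false))) := by
      unfold trM
      exact Fin.sum_univ_one _
    rw [h2] at h1
    rw [h1, Complex.ofReal_re]
  -- the masses
  have hm' : ∀ τ ∈ TracialStates L', 1 / 4 ≤ (τ (j' 0 (D'.one 0 true))).re ∧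
      (τ (j' 0 (D'.one 0 true))).re ≤ 3 / 4 ∧
      (τ (j' 0 (D'.one 0 true))).re + (τ (j' 0 (D'.one 0 false))).re = 1 := by
    intro τ hτ
    obtain ⟨-, -, -, h4, h5⟩ := hMASS D' hD' L' j' hL' τ hτ
    exact ⟨(h4 true).1, (h4 true).2, h5⟩
  have hm : ∀ τ ∈ TracialStates L, 1 / 4 ≤ (τ (j 0 (D.one 0 false))).re ∧
      (τ (j 0 (D.one 0 false))).re ≤ 3 / 4 ∧
      (τ (j 0 (D.one 0 true))).re + (τ (j 0 (D.one 0 false))).re = 1 := by
    intro τ hτ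
    obtain ⟨-, -, -, h4, h5⟩ := hMASS D hD L j hL τ hτ
    exact ⟨(h4 false).1, (h4 false).2, h5⟩
  -- bounds of `a` and `b`
  have hrange : ∀ τ ∈ TracialStates L', 1 / 4 ≤ (τ (Φ (j 0 (D.one 0 false)))).re ∧
      (τ (Φ (j 0 (D.one 0 false)))).re ≤ 3 / 4 := by
    intro τ hτ
    obtain ⟨σ, hσ, hσ'⟩ := pull Φ hτ
    rw [← hσ']
    exact ⟨(hm σ hσ).1, (hm σ hσ).2.1⟩
  have hab : (1 / 4 ≤ a ∧ a ≤ 3 / 4) ∧ (1 / 4 ≤ b ∧ b ≤ 3 / 4) := by
    obtain ⟨τ, hτ, h1⟩ := ext_trace hEXT hD' hL' true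
    obtain ⟨τ', hτ', h2⟩ := ext_trace hEXT hD' hL' false
    have h3 := hrange τ hτ
    have h4 := hrange τ' hτ'
    rw [hval τ hτ, h1] at h3
    have h5 := (hm' τ' hτ').2.2
    have h6 : (τ' (j' 0 (D'.one 0 true))).re = 1 / 4 := by linarith
    rw [hval τ' hτ', h6] at h4
    refine ⟨⟨by linarith [h3.1], by linarith [h3.2]⟩, ⟨by linarith [h4.1], by linarith [h4.2]⟩⟩
  -- the value `3/4` is attained
  have hmax : a = 3 / 4 ∨ b = 3 / 4 := by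
    obtain ⟨σ, hσ, h1⟩ := ext_trace hEXT hD hL false
    obtain ⟨τ, hτ, hτ'⟩ := pull Φ.symm hσ
    have h2 : (τ (Φ (j 0 (D.one 0 false)))).re = 3 / 4 := by
      rw [hτ', Φ.symm_apply_apply, h1]
    rw [hval τ hτ] at h2
    obtain ⟨h3, h4, -⟩ := hm' τ hτ
    by_contra hcon
    rw [not_or] at hcon
    have ha' : a < 3 / 4 := lt_of_le_of_ne hab.1.2 hcon.1
    have hb' : b < 3 / 4 := lt_of_le_of_ne hab.2.2 hcon.2
    refine conv_aux (a := 3 / 4 - a) (b := 3 / 4 - b) h3 h4 (by linarith) (by linarith) ?_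
    linear_combination -h2
  have hmin : a = 1 / 4 ∨ b = 1 / 4 := by
    obtain ⟨σ, hσ, h1⟩ := ext_trace hEXT hD hL true
    have h0 : (σ (j 0 (D.one 0 false))).re = 1 / 4 := by
      have := (hm σ hσ).2.2
      linarith
    obtain ⟨τ, hτ, hτ'⟩ := pull Φ.symm hσ
    have h2 : (τ (Φ (j 0 (D.one 0 false)))).re = 1 / 4 := by
      rw [hτ', Φ.symm_apply_apply, h0]
    rw [hval τ hτ] at h2
    obtain ⟨h3, h4, -⟩ := hm' τ hτ
    by_contra hcon
    rw [not_or] at hcon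
    have ha' : 1 / 4 < a := lt_of_le_of_ne hab.1.1 (Ne.symm hcon.1)
    have hb' : 1 / 4 < b := lt_of_le_of_ne hab.2.1 (Ne.symm hcon.2)
    refine conv_aux (a := a - 1 / 4) (b := b - 1 / 4) h3 h4 (by linarith) (by linarith) ?_
    linear_combination h2
  -- the marker
  have hmark : ∃ c : Bool, ∀ τ ∈ TracialStates L', (τ (Φ (j 0 (D.one 0 false)))).re =
      (τ (j' 0 (D'.one 0 c))).re := by
    rcases hmax with h1 | h1 <;> rcases hmin with h2 | h2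
    · exfalso; rw [h1] at h2; norm_num at h2
    · refine ⟨true, fun τ hτ => ?_⟩
      rw [hval τ hτ, h1, h2]
      ring
    · refine ⟨false, fun τ hτ => ?_⟩
      have h3 := (hm' τ hτ).2.2
      rw [hval τ hτ, h1, h2]
      linarith
    · exfalso; rw [h1] at h2; norm_num at h2
  obtain ⟨c, hc⟩ := hmark
  have h1 : Wit L' (Φ (j 0 (D.one 0 false))) s := wit_congr hc (hW c)
  have h2 := wit_map Φ.symm h1
  rw [Φ.symm_apply_apply] at h2
  exact h2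

end Pool.Agent.H921.ELNISO
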