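import Pool.Agent.H546.APStm

/-!
# Task AP4: the coefficients of `(1 - 4X^2 + 4zX^4)^(-1/2)` (helper921 for helper546)
-/

set_option autoImplicit false

namespace Pool.Agent.H921.AP4

open Polynomial Finset
open Pool.Agent.H546.AP

/-- the coefficients -/
def a (e m : ℕ) : ℕ := e.choose (2 * m) * (2 * m).choose m * 2 ^ (e - 2 * m)

theorem a_zero {e m : ℕ} (h : e < 2 * m) : a e m = 0 := by
  unfold a
  rw [Nat.choose_eq_zero_of_lt h, zero_mul, zero_mul]

theorem a_e_zero (e : ℕ) : a e 0 = 2 ^ e := by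
  unfold a
  simp

theorem cb (m : ℕ) : ((m : ℤ) + 1) * ((2 * m + 2).choose (m + 1) : ℕ) =
    2 * (2 * m + 1) * ((2 * m).choose m : ℕ) := by
  have h3 : (m + 1) * (m + 1).centralBinom = 2 * (2 * m + 1) * m.centralBinom :=
    Nat.succ_mul_centralBinom_succ m
  rw [Nat.centralBinom, Nat.centralBinom, show 2 * (m + 1) = 2 * m + 2 by ring] at h3
  exact_mod_cast h3

theorem c1 (n k : ℕ) : ((n : ℤ) + 1) * (n.choose k : ℕ) = ((n + 1).choose (k + 1) : ℕ) * (k + 1) := by
  have h := Nat.add_one_mul_choose_eq n k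
  exact_mod_cast h

theorem c2 (n k : ℕ) : ((n.choose (k + 1) : ℕ) : ℤ) * (k + 1) = (n.choose k : ℕ) * (n - k) := by
  rcases le_or_gt k n with h | h
  · have h1 := Nat.choose_succ_right_eq n k
    have h2 : ((n - k : ℕ) : ℤ) = (n : ℤ) - k := by push_cast [h]; ring
    rw [← h2]
    exact_mod_cast h1
  · rw [Nat.choose_eq_zero_of_lt h, Nat.choose_eq_zero_of_lt (by omega)]
    simp

theorem r3 (e m : ℕ) : (a (e + 2) (m + 1) : ℤ) * (m + 1) ^ 2 = (e + 2) * (e + 1) * a e m := by
  unfold a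
  have h1 := c1 (e + 1) (2 * m + 1)
  have h2 := c1 e (2 * m)
  have h3 := cb m
  rw [show 2 * (m + 1) = 2 * m + 2 by ring, show e + 2 - (2 * m + 2) = e - 2 * m by omega]
  push_cast at h1 h2 h3 ⊢
  rw [show e + 1 + 1 = e + 2 by ring, show 2 * m + 1 + 1 = 2 * m + 2 by ring] at h1
  linear_combination ((2 : ℤ) ^ (e - 2 * m) * ((e + 2).choose (2 * m + 2) : ℤ) * (m + 1)) * h3 -
    ((2 : ℤ) ^ (e - 2 * m) * ((2 * m).choose m : ℤ) * (2 * m + 1)) * h1 -
    ((2 : ℤ) ^ (e - 2 * m) * ((2 * m).choose m : ℤ) * (e + 2)) * h2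

theorem r4 (e m : ℕ) : (a (e + 1) (m + 1) : ℤ) * (m + 1) ^ 2 * 2 =
    (e + 1) * (e - 2 * m) * a e m := by
  rcases le_or_gt (2 * m + 1) e with h | h
  · obtain ⟨k, rfl⟩ := Nat.exists_eq_add_of_le h
    unfold a
    have h1 := c1 (2 * m + 1 + k) (2 * m + 1)
    have h2 := c2 (2 * m + 1 + k) (2 * m)
    have h3 := cb m
    rw [show 2 * (m + 1) = 2 * m + 2 by ring, show 2 * m + 1 + k + 1 - (2 * m + 2) = k by omega,
      show 2 * m + 1 + k - 2 * m = k + 1 by omega]
    push_cast at h1 h2 h3 ⊢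
    rw [show 2 * m + 1 + 1 = 2 * m + 2 by ring] at h1
    rw [pow_succ]
    linear_combination ((2 : ℤ) ^ k * 2 * ((2 * m + 1 + k + 1).choose (2 * m + 2) : ℤ) * (m + 1)) * h3 -
      ((2 : ℤ) ^ k * 2 * ((2 * m).choose m : ℤ) * (2 * m + 1)) * h1 +
      ((2 : ℤ) ^ k * 2 * ((2 * m).choose m : ℤ) * (2 * m + 1 + k + 1)) * h2
  · rw [a_zero (show e + 1 < 2 * (m + 1) by omega)]
    rcases Nat.lt_or_ge e (2 * m) with h1 | h1
    · rw [a_zero h1]
      simp
    · have : (e : ℤ) = 2 * m := by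
        have : e = 2 * m := by omega
        exact_mod_cast this
      rw [this]
      simp

theorem r2 (e m : ℕ) : (a e (m + 1) : ℤ) * (m + 1) ^ 2 * 4 =
    (e - 2 * m) * (e - 2 * m - 1) * a e m := by
  rcases le_or_gt (2 * m + 2) e with h | h
  · obtain ⟨k, rfl⟩ := Nat.exists_eq_add_of_le h
    unfold a
    have h1 := c2 (2 * m + 2 + k) (2 * m + 1)
    have h2 := c2 (2 * m + 2 + k) (2 * m)
    have h3 := cb m
    rw [show 2 * (m + 1) = 2 * m + 2 by ring, show 2 * m + 2 + k - (2 * m + 2) = k by omega,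
      show 2 * m + 2 + k - 2 * m = k + 2 by omega]
    push_cast at h1 h2 h3 ⊢
    rw [show 2 * m + 1 + 1 = 2 * m + 2 by ring] at h1
    rw [pow_add]
    linear_combination ((2 : ℤ) ^ k * 4 * ((2 * m + 2 + k).choose (2 * m + 2) : ℤ) * (m + 1)) * h3 +
      ((2 : ℤ) ^ k * 4 * ((2 * m).choose m : ℤ) * (2 * m + 1)) * h1 +
      ((2 : ℤ) ^ k * 4 * ((2 * m).choose m : ℤ) * (k + 1)) * h2
  · rw [a_zero (show e < 2 * (m + 1) by omega)]
    rcases Nat.lt_or_ge e (2 * m) with h1 | h1
    · rw [a_zero h1]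
      simp
    · rcases Nat.lt_or_ge e (2 * m + 1) with h2 | h2
      · have : (e : ℤ) = 2 * m := by
          have : e = 2 * m := by omega
          exact_mod_cast this
        rw [this]
        simp
      · have : (e : ℤ) = 2 * m + 1 := by
          have : e = 2 * m + 1 := by omega
          exact_mod_cast this
        rw [this]
        simp

theorem arec (e m : ℕ) : ((e : ℤ) + 2) * a (e + 2) (m + 1) = 2 * (2 * e + 3) * a (e + 1) (m + 1) -
    4 * (e + 1) * a e (m + 1) + 4 * (e + 1) * a e m := by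
  have h : ((m : ℤ) + 1) ^ 2 ≠ 0 := by positivity
  apply mul_left_cancel₀ h
  linear_combination ((e : ℤ) + 2) * r3 e m - (2 * e + 3) * r4 e m + (e + 1) * r2 e m

theorem arec0 (e : ℕ) : ((e : ℤ) + 2) * a (e + 2) 0 = 2 * (2 * e + 3) * a (e + 1) 0 -
    4 * (e + 1) * a e 0 := by
  rw [a_e_zero, a_e_zero, a_e_zero]
  push_cast
  ring

/-- the polynomials, in the variable `1 - z` -/
noncomputable def bt (e : ℕ) : ℤ[X] := ∑ m ∈ range (e / 2 + 1), C (a e m : ℤ) * X ^ m

theorem coeff_bt (e m : ℕ) : (bt e).coeff m = a e m := by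
  unfold bt
  rw [finsetSum_coeff]
  simp only [coeff_C_mul_X_pow]
  rw [Finset.sum_ite_eq]
  split_ifs with h
  · rfl
  · rw [mem_range, not_lt] at h
    rw [a_zero (by omega), Nat.cast_zero]

theorem bt_zero : bt 0 = 1 := by
  ext m
  rw [coeff_bt, coeff_one]
  cases m with
  | zero => simp [a]
  | succ m => rw [a_zero (by omega)]; simp

theorem bt_one : bt 1 = 2 := by
  ext m
  rw [coeff_bt]
  cases m with
  | zero => simp [a]
  | succ m =>
    rw [a_zero (by omega), Polynomial.coeff_ofNat_succ]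
    simp

theorem bt_rec (e : ℕ) : ((e : ℤ[X]) + 2) * bt (e + 2) = 2 * (2 * (e : ℤ[X]) + 3) * bt (e + 1) -
    4 * (1 - X) * ((e : ℤ[X]) + 1) * bt e := by
  have h : C ((e : ℤ) + 2) * bt (e + 2) = C (2 * (2 * (e : ℤ) + 3)) * bt (e + 1) -
      C (4 * ((e : ℤ) + 1)) * bt e + C (4 * ((e : ℤ) + 1)) * (X * bt e) := by
    ext m
    rw [coeff_add, coeff_sub, coeff_C_mul, coeff_C_mul, coeff_C_mul, coeff_C_mul, coeff_bt,
      coeff_bt, coeff_bt]
    cases m with
    | zero =>
      rw [coeff_X_mul_zero, mul_zero, add_zero]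
      exact arec0 e
    | succ m =>
      rw [coeff_X_mul, coeff_bt]
      exact arec e m
  have e1 : (C ((e : ℤ) + 2) : ℤ[X]) = (e : ℤ[X]) + 2 := by simp
  have e2 : (C (2 * (2 * (e : ℤ) + 3)) : ℤ[X]) = 2 * (2 * (e : ℤ[X]) + 3) := by simp
  have e3 : (C (4 * ((e : ℤ) + 1)) : ℤ[X]) = 4 * ((e : ℤ[X]) + 1) := by simp
  rw [e1, e2, e3] at h
  rw [h]
  ring

/-! ### the power series -/

section series

variable {B : Type} [CommRing B]

/-- the series -/
noncomputable def sr (b : ℕ → B) : PowerSeries B :=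
  PowerSeries.mk fun n => if n % 2 = 0 then b (n / 2) else 0

theorem sr_even (b : ℕ → B) (e : ℕ) : PowerSeries.coeff (2 * e) (sr b) = b e := by
  unfold sr
  rw [PowerSeries.coeff_mk, if_pos (by omega), show 2 * e / 2 = e by omega]

theorem sr_odd (b : ℕ → B) (e : ℕ) : PowerSeries.coeff (2 * e + 1) (sr b) = 0 := by
  unfold sr
  rw [PowerSeries.coeff_mk, if_neg (by omega)]

theorem sr_ode (w : B) (b : ℕ → B) (hb0 : b 0 = 1) (hb1 : b 1 = 2)
    (hr : ∀ e : ℕ, ((e : B) + 2) * b (e + 2) = 2 * (2 * (e : B) + 3) * b (e + 1) -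
      4 * w * ((e : B) + 1) * b e) :
    (1 - 4 * PowerSeries.X ^ 2 + PowerSeries.C (4 * w) * PowerSeries.X ^ 4) *
    PowerSeries.derivative B (sr b) + (PowerSeries.C (8 * w) * PowerSeries.X ^ 3 -
      4 * PowerSeries.X) * sr b = 0 := by
  have e0 : (4 : PowerSeries B) = PowerSeries.C (4 : B) := (map_ofNat PowerSeries.C 4).symm
  have e1 : (1 - 4 * PowerSeries.X ^ 2 + PowerSeries.C (4 * w) * PowerSeries.X ^ 4) *
      PowerSeries.derivative B (sr b) +
        (PowerSeries.C (8 * w) * PowerSeries.X ^ 3 - 4 * PowerSeries.X) * sr b =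
      PowerSeries.derivative B (sr b) -
        PowerSeries.C (4 : B) * (PowerSeries.X ^ 2 * PowerSeries.derivative B (sr b)) +
        PowerSeries.C (4 * w) * (PowerSeries.X ^ 4 * PowerSeries.derivative B (sr b)) +
        PowerSeries.C (8 * w) * (PowerSeries.X ^ 3 * sr b) -
        PowerSeries.C (4 : B) * (PowerSeries.X ^ 1 * sr b) := by
    rw [e0]
    ring
  rw [e1]
  ext1 n
  rw [map_sub, map_add, map_add, map_sub, PowerSeries.coeff_C_mul, PowerSeries.coeff_C_mul,
    PowerSeries.coeff_C_mul, PowerSeries.coeff_C_mul, PowerSeries.coeff_X_pow_mul',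
    PowerSeries.coeff_X_pow_mul', PowerSeries.coeff_X_pow_mul', PowerSeries.coeff_X_pow_mul',
    map_zero]
  simp only [PowerSeries.coeff_derivative]
  have h1 : ∀ j : ℕ, j % 2 = 1 → PowerSeries.coeff j (sr b) = 0 := by
    intro j hj
    have := sr_odd b (j / 2)
    rwa [show 2 * (j / 2) + 1 = j by omega] at this
  have h2 : ∀ j i : ℕ, j = 2 * i → PowerSeries.coeff j (sr b) = b i := by
    rintro _ i rfl
    exact sr_even b i
  rcases Nat.even_or_odd' n with ⟨k, rfl | rfl⟩
  · rcases k with _ | _ | k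
    · rw [if_neg (by omega), if_neg (by omega), if_neg (by omega), if_neg (by omega),
        h1 (2 * 0 + 1) (by omega)]
      simp
    · rw [if_pos (by omega), if_neg (by omega), if_neg (by omega), if_pos (by omega),
        h1 (2 * (0 + 1) + 1) (by omega), h1 (2 * (0 + 1) - 2 + 1) (by omega)]
      simp
    · rw [if_pos (by omega), if_pos (by omega), if_pos (by omega), if_pos (by omega),
        h1 (2 * (k + 1 + 1) + 1) (by omega), h1 (2 * (k + 1 + 1) - 2 + 1) (by omega),
        h1 (2 * (k + 1 + 1) - 4 + 1) (by omega), h1 (2 * (k + 1 + 1) - 3) (by omega),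
        h1 (2 * (k + 1 + 1) - 1) (by omega)]
      simp
  · rcases k with _ | _ | k
    · rw [if_neg (by omega), if_neg (by omega), if_neg (by omega), if_pos (by omega),
        h2 (2 * 0 + 1 + 1) 1 (by omega), h2 (2 * 0 + 1 - 1) 0 (by omega), hb0, hb1]
      push_cast
      ring
    · rw [if_pos (by omega), if_neg (by omega), if_pos (by omega), if_pos (by omega),
        h2 (2 * (0 + 1) + 1 + 1) 2 (by omega), h2 (2 * (0 + 1) + 1 - 2 + 1) 1 (by omega),
        h2 (2 * (0 + 1) + 1 - 3) 0 (by omega)]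
      have h3 := hr 0
      simp only [Nat.cast_zero, zero_add] at h3
      rw [show 2 * (0 + 1) + 1 - 2 = 1 by omega]
      push_cast
      linear_combination 2 * h3
    · rw [if_pos (by omega), if_pos (by omega), if_pos (by omega), if_pos (by omega),
        h2 (2 * (k + 1 + 1) + 1 + 1) (k + 1 + 2) (by omega),
        h2 (2 * (k + 1 + 1) + 1 - 2 + 1) (k + 1 + 1) (by omega),
        h2 (2 * (k + 1 + 1) + 1 - 4 + 1) (k + 1) (by omega),
        h2 (2 * (k + 1 + 1) + 1 - 3) (k + 1) (by omega),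
        h2 (2 * (k + 1 + 1) + 1 - 1) (k + 1 + 1) (by omega)]
      have h3 := hr (k + 1)
      rw [show 2 * (k + 1 + 1) + 1 - 2 = 2 * k + 3 by omega,
        show 2 * (k + 1 + 1) + 1 - 4 = 2 * k + 1 by omega]
      push_cast at h3 ⊢
      linear_combination 2 * h3

theorem sr_const (b : ℕ → B) (hb0 : b 0 = 1) : PowerSeries.constantCoeff (sr b) = 1 := by
  rw [← PowerSeries.coeff_zero_eq_constantCoeff_apply]
  have := sr_even b 0
  rw [mul_zero, hb0] at this
  exact this

theorem sr_sq [IsAddTorsionFree B] (w : B) (b : ℕ → B) (hb0 : b 0 = 1) (hb1 : b 1 = 2)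
    (hr : ∀ e : ℕ, ((e : B) + 2) * b (e + 2) = 2 * (2 * (e : B) + 3) * b (e + 1) -
      4 * w * ((e : B) + 1) * b e) :
    sr b ^ 2 * (1 - 4 * PowerSeries.X ^ 2 + PowerSeries.C (4 * w) * PowerSeries.X ^ 4) = 1 := by
  have h := sr_ode w b hb0 hb1 hr
  have e0 : (4 : PowerSeries B) = PowerSeries.C (4 : B) := (map_ofNat PowerSeries.C 4).symm
  have e8 : (8 : PowerSeries B) = PowerSeries.C (8 : B) := (map_ofNat PowerSeries.C 8).symm
  have hF : PowerSeries.derivative B
      (1 - 4 * PowerSeries.X ^ 2 + PowerSeries.C (4 * w) * PowerSeries.X ^ 4) =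
      - 8 * PowerSeries.X + 2 * (PowerSeries.C (8 * w) * PowerSeries.X ^ 3) := by
    rw [e0, map_add, map_sub, Derivation.leibniz, Derivation.leibniz, PowerSeries.derivative_C,
      PowerSeries.derivative_C, PowerSeries.derivative_pow, PowerSeries.derivative_pow,
      PowerSeries.derivative_X, PowerSeries.derivative_one]
    simp only [smul_eq_mul, mul_zero, add_zero, map_mul]
    push_cast
    rw [← e0, ← e8]
    ring
  apply PowerSeries.derivative.ext
  · rw [Derivation.leibniz, PowerSeries.derivative_pow, hF, PowerSeries.derivative_one]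
    simp only [smul_eq_mul]
    push_cast
    linear_combination (2 * sr b) * h
  · have h0 := sr_const b hb0
    simp [h0]

end series

theorem h_S_cser : S_cser := by
  intro A _ _ h2 z c hc h0 e
  obtain ⟨φ, hφ⟩ : ∃ φ : ℤ[X] →+* A, φ = Polynomial.eval₂RingHom (Int.castRingHom A) (1 - z) :=
    ⟨_, rfl⟩
  have hX : φ Polynomial.X = 1 - z := by
    rw [hφ]
    exact Polynomial.eval₂_X _ _
  obtain ⟨c0, hc0⟩ : ∃ c0 : PowerSeries A, c0 = PowerSeries.map φ (sr bt) := ⟨_, rfl⟩
  have h1 : c0 ^ 2 * (1 - 4 * PowerSeries.X ^ 2 + PowerSeries.C (4 * z) * PowerSeries.X ^ 4) = 1 := by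
    have h := congrArg (PowerSeries.map φ) (sr_sq (1 - Polynomial.X) bt bt_zero bt_one bt_rec)
    rw [map_mul, map_pow, ← hc0, map_add, map_sub, map_mul, map_mul, map_pow, map_pow,
      PowerSeries.map_X, PowerSeries.map_C, map_one, map_mul, map_sub, map_one, hX, map_ofNat,
      map_ofNat] at h
    rw [← h]
    congr 4
    ring
  have h3 : PowerSeries.constantCoeff c0 = 1 := by
    rw [← PowerSeries.coeff_zero_eq_constantCoeff_apply, hc0, PowerSeries.coeff_map]
    have := sr_even bt 0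
    rw [mul_zero, bt_zero] at this
    rw [this, map_one]
  have h4 : c = c0 := by
    have h5 : (c - c0) * ((c + c0) * (1 - 4 * PowerSeries.X ^ 2 +
        PowerSeries.C (4 * z) * PowerSeries.X ^ 4)) = 0 := by
      linear_combination hc - h1
    rcases mul_eq_zero.1 h5 with h6 | h6
    · exact sub_eq_zero.1 h6
    · rcases mul_eq_zero.1 h6 with h7 | h7
      · exfalso
        have := congrArg PowerSeries.constantCoeff h7
        rw [map_add, h0, h3, map_zero] at this
        apply h2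
        rw [← this]
        norm_num
      · exfalso
        rw [h7, mul_zero] at hc
        exact zero_ne_one hc
  rw [h4, hc0, PowerSeries.coeff_map, sr_even]
  unfold bt bq
  rw [map_sum, Polynomial.eval_finsetSum]
  apply Finset.sum_congr rfl
  intro m _
  rw [map_mul, map_pow, hX, Polynomial.eval_mul, Polynomial.eval_C, Polynomial.eval_pow,
    Polynomial.eval_sub, Polynomial.eval_one, Polynomial.eval_X]
  congr 1
  rw [hφ]
  unfold a
  rw [Polynomial.coe_eval₂RingHom, Polynomial.eval₂_C]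
  simp

end Pool.Agent.H921.AP4
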