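import Mathlib
import Pool.Agent.H576.RD.Stm

/-!
# D4C for helper576's project RD (MP_41c3f3_co)
-/

set_option autoImplicit false

open Real

namespace Pool.Agent.H921

open Pool.Agent.H576.RD

namespace RDD4Caux

theorem nsq (v : E) : ‖v‖ ^ 2 = v 0 ^ 2 + v 1 ^ 2 + v 2 ^ 2 := by
  rw [EuclideanSpace.norm_sq_eq, Fin.sum_univ_three]
  simp only [Real.norm_eq_abs, sq_abs]

theorem lt_of_nsq {v : E} {L : ℝ} (hL : 0 < L) (h : ‖v‖ ^ 2 < L ^ 2) : ‖v‖ < L :=
  lt_of_pow_lt_pow_left₀ 2 hL.le h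

theorem norm_eq_of {v w : E} (h : v 0 ^ 2 + v 1 ^ 2 + v 2 ^ 2 = w 0 ^ 2 + w 1 ^ 2 + w 2 ^ 2) :
    ‖v‖ = ‖w‖ := by
  have h1 : ‖v‖ ^ 2 = ‖w‖ ^ 2 := by rw [nsq, nsq, h]
  exact (pow_left_inj₀ (norm_nonneg _) (norm_nonneg _) two_ne_zero).1 h1

theorem rr0 (v : E) : rrE (π / 4) v 0 = √2 / 2 * v 0 - √2 / 2 * v 1 := by
  simp [rrE, Real.cos_pi_div_four, Real.sin_pi_div_four]
theorem rr1 (v : E) : rrE (π / 4) v 1 = √2 / 2 * v 0 + √2 / 2 * v 1 := by
  simp [rrE, Real.cos_pi_div_four, Real.sin_pi_div_four]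
theorem rr2 (v : E) : rrE (π / 4) v 2 = -(v 2) := by
  simp [rrE]

/-- the inverse of `rrE (π/4)` -/
noncomputable def gi (v : E) : E := !₂[√2 / 2 * v 0 + √2 / 2 * v 1, √2 / 2 * v 1 - √2 / 2 * v 0, -(v 2)]

theorem gi0 (v : E) : gi v 0 = √2 / 2 * v 0 + √2 / 2 * v 1 := by simp [gi]
theorem gi1 (v : E) : gi v 1 = √2 / 2 * v 1 - √2 / 2 * v 0 := by simp [gi]
theorem gi2 (v : E) : gi v 2 = -(v 2) := by simp [gi]

theorem mir0 (v : E) : mirE v 0 = v 0 := by simp [mirE]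
theorem mir1 (v : E) : mirE v 1 = -(v 1) := by simp [mirE]
theorem mir2 (v : E) : mirE v 2 = v 2 := by simp [mirE]

theorem s2 : (√2 / 2) ^ 2 = 1 / 2 := by
  rw [div_pow, Real.sq_sqrt (by norm_num)]
  norm_num

theorem ext3 {v w : E} (h0 : v 0 = w 0) (h1 : v 1 = w 1) (h2 : v 2 = w 2) : v = w := by
  ext i
  fin_cases i
  · exact h0
  · exact h1
  · exact h2

theorem rr_gi (v : E) : rrE (π / 4) (gi v) = v := by
  have h := s2
  apply ext3
  · rw [rr0, gi0, gi1]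
    linear_combination (2 * v 0) * h
  · rw [rr1, gi0, gi1]
    linear_combination (2 * v 1) * h
  · rw [rr2, gi2]
    ring

theorem norm_rr (v : E) : ‖rrE (π / 4) v‖ = ‖v‖ := by
  have h := s2
  apply norm_eq_of
  rw [rr0, rr1, rr2]
  linear_combination (2 * v 0 ^ 2 + 2 * v 1 ^ 2) * h

theorem norm_gi (v : E) : ‖gi v‖ = ‖v‖ := by
  rw [← norm_rr (gi v), rr_gi]

theorem norm_mir (v : E) : ‖mirE v‖ = ‖v‖ := by
  apply norm_eq_of
  rw [mir0, mir1, mir2]
  ring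

theorem axis {r : ℝ} {X : Set E} {L d : ℝ} (h : D4H r X L d) (hd : d = L) {p : E} {φ : LI}
    (hφ : Eqv X 0 p 9 φ) {q : E} (hq : q ∈ X) (hqL : ‖q - p‖ < L) : ∃ t : ℝ, q - p = t • φ e2 := by
  set v : E := (φ⁻¹ : LI) (q - p) with hv
  have h1 : φ v = q - p := LinearIsometryEquiv.apply_symm_apply φ _
  have h2 : ‖v‖ = ‖q - p‖ := by rw [hv, LinearIsometryEquiv.norm_map]
  have h3 : v ∈ X := by
    have h4 := (hφ v (by rw [h2]; linarith [h.L2])).2 (by
      rw [h1, add_sub_cancel]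
      exact hq)
    rwa [zero_add] at h4
  have h5 : ¬ Off v := by
    intro ho
    have := h.dle v h3 (by rw [h2]; linarith [h.L2]) ho
    rw [h2] at this
    linarith
  unfold Off at h5
  push Not at h5
  have h6 : v = v 2 • e2 := by
    apply ext3
    · rw [h5.1]
      simp [e2]
    · rw [h5.2]
      simp [e2]
    · simp [e2]
  refine ⟨v 2, ?_⟩
  rw [← h1]
  conv_lhs => rw [h6]
  rw [map_smul]

theorem kap1 {κ : ℝ} (h0 : 0 < κ) (h : κ ^ 2 = 1 / 2) : 0.7 < κ := by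
  by_contra hc
  push Not at hc
  have := pow_le_pow_left₀ h0.le hc 2
  norm_num at this
  linarith

theorem kap2 {κ : ℝ} (h : κ ^ 2 = 1 / 2) : κ < 1 := by
  by_contra hc
  push Not at hc
  nlinarith

theorem bsmall {A B z2 N : ℝ} (h3 : 3 < N) (hN : N = A ^ 2 + B ^ 2 + z2)
    (hA : N ≤ 2 * A) (hz : 0 ≤ z2) : B ^ 2 + z2 < 3 / 4 ∧ B ^ 2 ≤ A ^ 2 := by
  have h5 : N ^ 2 ≤ 4 * A ^ 2 := by
    have := pow_le_pow_left₀ (by linarith : 0 ≤ N) hA 2
    linarith [this, (by ring : (2 * A) ^ 2 = 4 * A ^ 2)]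
  have h6 : 4 * N - N ^ 2 < 3 := by nlinarith
  constructor
  · linarith
  · have h7 : 9 < N ^ 2 := by nlinarith
    linarith

end RDD4Caux

open RDD4Caux in
theorem rd_d4c (h1 : S_T0) (h2 : S_LP) : S_D4c := by
  intro r X L d h hd
  by_contra hcon
  push Not at hcon
  have hL0 := h.Lpos
  have hs2 := s2
  set κ : ℝ := √2 / 2 with hκ
  have hκ0 : 0 < κ := by positivity
  have hκ1 : 0.7 < κ := kap1 hκ0 hs2
  have hκ2 : κ < 1 := kap2 hs2
  set c8 : ℝ := Real.cos (π / 8) with hc8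
  set s8 : ℝ := Real.sin (π / 8) with hs8
  have e1 : c8 ^ 2 + s8 ^ 2 = 1 := Real.cos_sq_add_sin_sq _
  have e2' : π / 4 = 2 * (π / 8) := by ring
  have e3 : 2 * c8 ^ 2 - 1 = κ := by
    rw [hκ, ← Real.cos_pi_div_four, e2', Real.cos_two_mul]
  have e4 : 2 * s8 * c8 = κ := by
    rw [hκ, ← Real.sin_pi_div_four, e2', Real.sin_two_mul]
  set f : E := !₂[c8, s8, 0] with hf
  have hf1 : ‖f‖ = 1 := by
    have : ‖f‖ ^ 2 = 1 := by
      rw [nsq]
      simp [hf]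
      exact e1
    exact (pow_eq_one_iff_of_nonneg (norm_nonneg f) two_ne_zero).1 this
  obtain ⟨u, hu0, hu2, huX, huf⟩ := h1 r X h.del 0 h.zero f hf1
  rw [zero_add] at huX
  have hin : inner ℝ u f = u 0 * c8 + u 1 * s8 := by
    rw [PiLp.inner_apply, Fin.sum_univ_three]
    simp [hf]
    ring
  rw [hin] at huf
  have hn := nsq u
  set x := u 0 with hx
  set y := u 1 with hy
  set z := u 2 with hz
  set A : ℝ := x * c8 + y * s8 with hA
  set B : ℝ := y * c8 - x * s8 with hB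
  have hAB : A ^ 2 + B ^ 2 = x ^ 2 + y ^ 2 := by
    rw [hA, hB]
    linear_combination (x ^ 2 + y ^ 2) * e1
  have hoff : Off u := by
    by_contra ho
    unfold Off at ho
    push Not at ho
    have : ‖u‖ ^ 2 ≤ 0 := by
      refine huf.trans (le_of_eq ?_)
      rw [hA]
      change 2 * (x * c8 + y * s8) = 0
      have hx0 : x = 0 := ho.1
      have hy0 : y = 0 := ho.2
      rw [hx0, hy0]
      ring
    have h00 : 0 < ‖u‖ ^ 2 := pow_pos (norm_pos_iff.2 hu0) 2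
    linarith
  have hdu : L ≤ ‖u‖ := by
    rw [← hd]
    exact h.dle u huX hu2 hoff
  have hN3 : 3 < ‖u‖ ^ 2 := hcon.trans_le (pow_le_pow_left₀ hL0.le hdu 2)
  have hN4 : ‖u‖ ^ 2 ≤ 4 := by
    have := pow_le_pow_left₀ (norm_nonneg u) hu2 2
    linarith
  set N : ℝ := ‖u‖ ^ 2 with hN
  have hA0 : 3 / 2 < A := by linarith
  have hz2 : 0 ≤ z ^ 2 := sq_nonneg z
  have hxy4 : x ^ 2 + y ^ 2 ≤ 4 := by linarith
  -- B is small
  have hBA0 : B ^ 2 + z ^ 2 < 3 / 4 ∧ B ^ 2 ≤ A ^ 2 :=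
    bsmall hN3 (by rw [hn, ← hAB]) huf hz2
  have hBA : B ^ 2 ≤ A ^ 2 := hBA0.2
  have hBA' := abs_le_of_sq_le_sq' hBA (by linarith)
  -- the points
  have huX2 : gi u ∈ X := by
    rw [h.sg (gi u) (by rw [norm_gi]; exact hu2), rr_gi]
    exact huX
  have huX3 : rrE (π / 4) u ∈ X := (h.sg u hu2).1 huX
  have huX4 : mirE u ∈ X := (h.sm u hu2).1 huX
  set u' : E := rrE (π / 4) (mirE u) with hu'
  have huX5 : u' ∈ X := (h.sg (mirE u) (by rw [norm_mir]; exact hu2)).1 huX4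
  have c0 : u' 0 = κ * x + κ * y := by
    rw [hu', rr0, mir0, mir1]
    ring
  have c1 : u' 1 = κ * x - κ * y := by
    rw [hu', rr1, mir0, mir1]
    ring
  have c2 : u' 2 = -z := by
    rw [hu', rr2, mir2]
  -- distances
  have d1 : ‖rrE (π / 4) u - u‖ ^ 2 = (2 - 2 * κ) * (x ^ 2 + y ^ 2) + 4 * z ^ 2 := by
    rw [nsq]
    simp only [PiLp.sub_apply]
    rw [rr0, rr1, rr2]
    linear_combination (2 * x ^ 2 + 2 * y ^ 2) * hs2
  have d2 : ‖gi u - u‖ ^ 2 = (2 - 2 * κ) * (x ^ 2 + y ^ 2) + 4 * z ^ 2 := by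
    rw [nsq]
    simp only [PiLp.sub_apply]
    rw [gi0, gi1, gi2]
    linear_combination (2 * x ^ 2 + 2 * y ^ 2) * hs2
  have d3 : ‖u - u'‖ ^ 2 = 4 * B ^ 2 + 4 * z ^ 2 := by
    rw [nsq]
    simp only [PiLp.sub_apply]
    rw [c0, c1, c2, hB]
    linear_combination (2 * x ^ 2 + 2 * y ^ 2) * hs2 + (-2 * y ^ 2 + 2 * x ^ 2) * e3 +
      (4 * x * y) * e4 + (-4 * x ^ 2) * e1
  have hdist : L ≤ ‖rrE (π / 4) u - u‖ := by
    rcases le_or_gt ‖rrE (π / 4) u - u‖ 2 with hc | hc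
    · rw [← hd]
      apply h2 X 2 d (h.nn.mono (by norm_num)) h.zero h.dle u (rrE (π / 4) u) (gi u) huX huX3 huX2
        (norm_rr u) (norm_gi u) _ hc
      · intro he
        have a0 := congrArg (fun v : E => v 0) he
        have a1 := congrArg (fun v : E => v 1) he
        simp only at a0 a1
        rw [rr0, gi0] at a0
        rw [rr1, gi1] at a1
        change κ * x - κ * y = κ * x + κ * y at a0
        change κ * x + κ * y = κ * y - κ * x at a1
        rcases hoff with ho | ho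
        · apply ho
          have : κ * x = 0 := by linarith
          exact (mul_eq_zero.1 this).resolve_left hκ0.ne'
        · apply ho
          have : κ * y = 0 := by linarith
          exact (mul_eq_zero.1 this).resolve_left hκ0.ne'
      · exact (pow_left_inj₀ (norm_nonneg _) (norm_nonneg _) two_ne_zero).1 (by rw [d1, d2])
    · linarith [h.L2]
  have hdist2 : L ≤ ‖gi u - u‖ := by
    have : ‖gi u - u‖ = ‖rrE (π / 4) u - u‖ :=
      (pow_left_inj₀ (norm_nonneg _) (norm_nonneg _) two_ne_zero).1 (by rw [d1, d2])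
    rw [this]
    exact hdist
  have hz0 : z ≠ 0 := by
    intro hz0
    have a1 : L ^ 2 ≤ ‖rrE (π / 4) u - u‖ ^ 2 := pow_le_pow_left₀ hL0.le hdist 2
    rw [d1, hz0] at a1
    have a2 := mul_le_mul_of_nonneg_left hxy4 (by linarith : 0 ≤ 2 - 2 * κ)
    linarith
  have huu' : ‖u - u'‖ ^ 2 < 3 := by
    rw [d3]
    linarith [hBA0.1]
  obtain ⟨φ, hφ⟩ := h.nn 0 h.zero u' huX5
  obtain ⟨t, ht⟩ := axis h hd hφ huX (lt_of_nsq hL0 (by linarith))
  have ht2 : 2 * z = t * (φ e2) 2 := by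
    have := congrArg (fun v : E => v 2) ht
    simp only [PiLp.sub_apply, PiLp.smul_apply, smul_eq_mul] at this
    rw [c2] at this
    linarith
  have hne : (φ e2) 2 ≠ 0 := by
    intro h0
    rw [h0, mul_zero] at ht2
    apply hz0
    linarith
  have key : ∀ q : E, q ∈ X → q 2 = -z → ‖q - u'‖ ^ 2 < L ^ 2 → L ≤ ‖q - u‖ → False := by
    intro q hq hq2 hqL hqu
    obtain ⟨t', ht'⟩ := axis h hd hφ hq (lt_of_nsq hL0 hqL)
    have h6 : 0 = t' * (φ e2) 2 := by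
      have := congrArg (fun v : E => v 2) ht'
      simp only [PiLp.sub_apply, PiLp.smul_apply, smul_eq_mul] at this
      rw [c2, hq2] at this
      linarith
    have h7 : t' = 0 := (mul_eq_zero.1 h6.symm).resolve_right hne
    rw [h7, zero_smul] at ht'
    have h8 : q = u' := sub_eq_zero.1 ht'
    rw [h8] at hqu
    have h9 : L ^ 2 ≤ ‖u' - u‖ ^ 2 := pow_le_pow_left₀ hL0.le hqu 2
    rw [norm_sub_rev] at h9
    linarith
  have hB2 : B ^ 2 = (y ^ 2 * (1 + κ) + x ^ 2 * (1 - κ)) / 2 - κ * x * y := by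
    rw [hB]
    linear_combination (y ^ 2 * (1 / 2)) * e3 + x ^ 2 * (e1 - (1 / 2) * e3) - x * y * e4
  have hAB' : A * B = κ * x * y + κ * (y ^ 2 - x ^ 2) / 2 := by
    rw [hA, hB]
    linear_combination x * y * (e3 - e1) + (y ^ 2 - x ^ 2) / 2 * e4
  have hbig : (2 - 2 * κ) * (A ^ 2 + B ^ 2) < 3 := by
    have a2 := mul_le_mul_of_nonneg_left hxy4 (by linarith : 0 ≤ 2 - 2 * κ)
    rw [hAB]
    linarith
  rcases le_total 0 B with hB0 | hB0
  · apply key (gi u) huX2 (gi2 u) _ hdist2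
    have d4 : ‖gi u - u'‖ ^ 2 = 2 * (x - y) ^ 2 := by
      rw [nsq]
      simp only [PiLp.sub_apply]
      rw [c0, c1, c2, gi0, gi1, gi2]
      linear_combination (4 * (x - y) ^ 2) * hs2
    have d5 : 2 * (x - y) ^ 2 = (2 - 2 * κ) * (A ^ 2 + B ^ 2) + 4 * κ * (B * (B - A)) := by
      have e : B * (B - A) = B ^ 2 - A * B := by ring
      rw [hAB, e, hB2, hAB']
      linear_combination (8 * x * y) * hs2
    have d6 : B * (B - A) ≤ 0 := mul_nonpos_of_nonneg_of_nonpos hB0 (by linarith [hBA'.2])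
    have d7 : κ * (B * (B - A)) ≤ 0 := mul_nonpos_of_nonneg_of_nonpos hκ0.le d6
    rw [d4, d5]
    linarith
  · apply key (rrE (π / 4) u) huX3 (rr2 u) _ hdist
    have d4 : ‖rrE (π / 4) u - u'‖ ^ 2 = 4 * y ^ 2 := by
      rw [nsq]
      simp only [PiLp.sub_apply]
      rw [c0, c1, c2, rr0, rr1, rr2]
      linear_combination (8 * y ^ 2) * hs2
    have d5 : 4 * y ^ 2 = (2 - 2 * κ) * (A ^ 2 + B ^ 2) + 4 * κ * (B * (B + A)) := by
      have e : B * (B + A) = B ^ 2 + A * B := by ring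
      rw [hAB, e, hB2, hAB']
      linear_combination (-4 * (y ^ 2 - x ^ 2)) * hs2
    have d6 : B * (B + A) ≤ 0 := mul_nonpos_of_nonpos_of_nonneg hB0 (by linarith [hBA'.1])
    have d7 : κ * (B * (B + A)) ≤ 0 := mul_nonpos_of_nonneg_of_nonpos hκ0.le d6
    rw [d4, d5]
    linarith

end Pool.Agent.H921
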