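import Pool.Agent.H812.SF.Stm2

set_option autoImplicit false

/-! A slow rotation hits a given direction: proof of `S_SCH`. -/

namespace Pool.Agent.H921.SfSCH

open Pool.Agent.N229.SC Pool.Agent.H812.SF

theorem nonzero {δ : ℝ} {N : ℕ} {a b : ℕ → ℝ} (hδ : 0 < δ) (h0 : a 0 ≠ 0 ∨ b 0 ≠ 0)
    (hS : ∀ j < N, δ * (a j ^ 2 + b j ^ 2) ≤ a j * b (j + 1) - b j * a (j + 1)) :
    ∀ j ≤ N, 0 < a j ^ 2 + b j ^ 2 := by
  intro j
  induction j with
  | zero =>
    intro _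
    rcases h0 with h | h
    · have := pow_pos (abs_pos.2 h) 2
      rw [sq_abs] at this
      nlinarith [sq_nonneg (b 0)]
    · have := pow_pos (abs_pos.2 h) 2
      rw [sq_abs] at this
      nlinarith [sq_nonneg (a 0)]
  | succ j ih =>
    intro hj
    have h1 := ih (by omega)
    have h2 := hS j (by omega)
    have h3 : 0 < δ * (a j ^ 2 + b j ^ 2) := mul_pos hδ h1
    by_contra hcon
    have h4 : a (j + 1) ^ 2 + b (j + 1) ^ 2 ≤ 0 := not_lt.1 hcon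
    have h5 : a (j + 1) ^ 2 = 0 :=
      le_antisymm (by linarith [sq_nonneg (b (j + 1))]) (sq_nonneg _)
    have h6 : b (j + 1) ^ 2 = 0 :=
      le_antisymm (by linarith [sq_nonneg (a (j + 1))]) (sq_nonneg _)
    have h7 : a (j + 1) = 0 := pow_eq_zero_iff (two_ne_zero) |>.1 h5
    have h8 : b (j + 1) = 0 := pow_eq_zero_iff (two_ne_zero) |>.1 h6
    rw [h7, h8] at h2
    linarith

/-- the bounds for one step -/
theorem bd {ε δ x y x' y' : ℝ} (hε' : ε ≤ 1 / 10) (hδ : 0 < δ)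
    (hδ' : 200 * δ ≤ ε) (h1 : |x' - x| ≤ 100 * δ * (|x| + |y|))
    (h2 : |y' - y| ≤ 100 * δ * (|x| + |y|)) :
    |x' - x| ≤ 1 / 20 * (|x| + |y|) ∧ |y' - y| ≤ 1 / 20 * (|x| + |y|) := by
  have h3 : 100 * δ * (|x| + |y|) ≤ 1 / 20 * (|x| + |y|) :=
    mul_le_mul_of_nonneg_right (by linarith) (by positivity)
  exact ⟨h1.trans h3, h2.trans h3⟩

theorem prod_le {ε x y x' y' : ℝ} (hε : 0 < ε) (hε' : ε ≤ 1 / 10)
    (h1 : |x' - x| ≤ 1 / 20 * (|x| + |y|)) (h2 : |y' - y| ≤ 1 / 20 * (|x| + |y|))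
    (hp : 0 < x + 2 * ε * y) (hp' : 0 < x' + 2 * ε * y') :
    (x + 2 * ε * y) * (x' + 2 * ε * y') ≤ 2 * (x ^ 2 + y ^ 2) := by
  have e1 : ∀ z : ℝ, 2 * ε * z ≤ 1 / 5 * |z| := by
    intro z
    have : 2 * ε * z ≤ 2 * ε * |z| := mul_le_mul_of_nonneg_left (le_abs_self z) (by linarith)
    have h3 : 2 * ε * |z| ≤ 1 / 5 * |z| :=
      mul_le_mul_of_nonneg_right (by linarith) (abs_nonneg z)
    linarith
  have e2 : x + 2 * ε * y ≤ |x| + 1 / 5 * |y| := by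
    linarith [e1 y, le_abs_self x]
  have a1 : |x'| ≤ |x| + 1 / 20 * (|x| + |y|) := by
    have := abs_add_le (x' - x) x
    rw [sub_add_cancel] at this
    linarith
  have a2 : |y'| ≤ |y| + 1 / 20 * (|x| + |y|) := by
    have := abs_add_le (y' - y) y
    rw [sub_add_cancel] at this
    linarith
  have e3 : x' + 2 * ε * y' ≤ 106 / 100 * |x| + 26 / 100 * |y| := by
    linarith [e1 y', le_abs_self x']
  have e4 : (x + 2 * ε * y) * (x' + 2 * ε * y') ≤
      (|x| + 1 / 5 * |y|) * (106 / 100 * |x| + 26 / 100 * |y|) :=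
    mul_le_mul e2 e3 hp'.le (by positivity)
  refine e4.trans ?_
  rw [← sq_abs x, ← sq_abs y]
  nlinarith [sq_nonneg (|x| - |y|), sq_nonneg (|x|), sq_nonneg (|y|)]

theorem incr {ε δ x y x' y' : ℝ} (hε : 0 < ε) (hε' : ε ≤ 1 / 10) (hδ : 0 < δ)
    (h1 : |x' - x| ≤ 1 / 20 * (|x| + |y|)) (h2 : |y' - y| ≤ 1 / 20 * (|x| + |y|))
    (hS : δ * (x ^ 2 + y ^ 2) ≤ x * y' - y * x')
    (hp : 0 < x + 2 * ε * y) (hp' : 0 < x' + 2 * ε * y') :
    y / (x + 2 * ε * y) + δ / 2 ≤ y' / (x' + 2 * ε * y') := by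
  have h3 := prod_le hε hε' h1 h2 hp hp'
  have h5 : (x + 2 * ε * y) * y' - y * (x' + 2 * ε * y') = x * y' - y * x' := by ring
  rw [← h5] at hS
  clear h5 h1 h2
  generalize x + 2 * ε * y = P at *
  generalize x' + 2 * ε * y' = P' at *
  rw [← sub_nonneg]
  have hP := hp.ne'
  have hP' := hp'.ne'
  have h4 : y' / P' - (y / P + δ / 2) = ((P * y' - y * P') - δ / 2 * (P * P')) / (P * P') := by
    field_simp
    ring
  rw [h4]
  refine div_nonneg ?_ (mul_pos hp hp').le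
  nlinarith

theorem first {ε δ x y x' y' : ℝ} (hε : 0 < ε) (hε' : ε ≤ 1 / 10) (hδ : 0 < δ)
    (hδ' : 200 * δ ≤ ε)
    (h1 : |x' - x| ≤ 1 / 20 * (|x| + |y|)) (h2 : |y' - y| ≤ 1 / 20 * (|x| + |y|))
    (hS : δ * (x ^ 2 + y ^ 2) ≤ x * y' - y * x')
    (hp : 0 < x + 2 * ε * y) (hp' : 0 < x' + 2 * ε * y') :
    -(2 / δ) ≤ y' / (x' + 2 * ε * y') := by
  by_cases c1 : 0 ≤ y'
  · have : 0 ≤ y' / (x' + 2 * ε * y') := div_nonneg c1 hp'.le
    have h3 : 0 < 2 / δ := by positivity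
    linarith
  by_cases c2 : -(x + 2 * ε * y) ≤ y
  · have h3 := incr hε hε' hδ h1 h2 hS hp hp'
    have h4 : -1 ≤ y / (x + 2 * ε * y) := by
      rw [le_div_iff₀ hp]
      linarith
    have h5 : 1 ≤ 2 / δ := by
      rw [le_div_iff₀ hδ]
      linarith
    linarith
  · have c1' : y' < 0 := not_le.1 c1
    have c2' : y < -(x + 2 * ε * y) := not_le.1 c2
    have hy : y < 0 := by linarith
    rw [neg_le_iff_add_nonneg, ← sub_nonneg]
    have e1 : |y| = -y := abs_of_neg hy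
    have e2 : |x| ≤ 12 / 10 * (-y) := by
      rw [abs_le]
      constructor <;> nlinarith
    have e3 : -(2 * -y) ≤ y' := by
      have := neg_abs_le (y' - y)
      rw [e1] at h2
      nlinarith
    have e4 : δ * (-y) ≤ x' + 2 * ε * y' := by
      have h5 : δ * y ^ 2 ≤ (x + 2 * ε * y) * y' - y * (x' + 2 * ε * y') := by
        nlinarith [mul_nonneg hδ.le (sq_nonneg x)]
      have h6 : (x + 2 * ε * y) * y' ≤ 0 := mul_nonpos_of_nonneg_of_nonpos hp.le c1'.le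
      have h7 : (-y) * (δ * (-y)) ≤ (-y) * (x' + 2 * ε * y') := by nlinarith
      exact le_of_mul_le_mul_left h7 (by linarith)
    have e6 : 0 ≤ y' / (x' + 2 * ε * y') + 2 / δ := by
      clear h1 h2 hS
      generalize x' + 2 * ε * y' = P' at *
      have hP' := hp'.ne'
      have e5 : y' / P' + 2 / δ = (δ * y' + 2 * P') / (P' * δ) := by
        field_simp
      rw [e5]
      refine div_nonneg ?_ (mul_pos hp' hδ).le
      nlinarith
    linarith

theorem last {ε δ x y x' y' : ℝ} (hε : 0 < ε) (hε' : ε ≤ 1 / 10) (hδ : 0 < δ)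
    (hδ' : 200 * δ ≤ ε) (h2 : |y' - y| ≤ 1 / 20 * (|x| + |y|))
    (hS : δ * (x ^ 2 + y ^ 2) ≤ x * y' - y * x')
    (hp : 0 < x + 2 * ε * y) (hp' : 0 < x' + 2 * ε * y')
    (hr : 3 / δ ≤ y / (x + 2 * ε * y)) : False := by
  have h3 : 3 * (x + 2 * ε * y) ≤ δ * y := by
    rw [div_le_div_iff₀ hδ hp] at hr
    linarith
  have hy : 0 < y := by
    by_contra hcon
    have : y ≤ 0 := not_lt.1 hcon
    nlinarith
  have e1 : |y| = y := abs_of_pos hy
  have e0 : δ * y ≤ 1 / 2000 * y := mul_le_mul_of_nonneg_right (by linarith) hy.le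
  have e00 : ε * y ≤ 1 / 10 * y := mul_le_mul_of_nonneg_right hε' hy.le
  have e2 : |x| ≤ y := by
    rw [abs_le]
    constructor
    · nlinarith
    · nlinarith [mul_pos hε hy]
  have e3 : y' ≤ 2 * y := by
    have := le_abs_self (y' - y)
    rw [e1] at h2
    linarith
  have e4 : (x + 2 * ε * y) * y' ≤ (x + 2 * ε * y) * (2 * y) :=
    mul_le_mul_of_nonneg_left e3 hp.le
  have e5 : 3 * ((x + 2 * ε * y) * (2 * y)) ≤ δ * y * (2 * y) := by
    have := mul_le_mul_of_nonneg_right h3 (show (0 : ℝ) ≤ 2 * y by linarith)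
    linarith
  have h5 : δ * y ^ 2 ≤ (x + 2 * ε * y) * y' - y * (x' + 2 * ε * y') := by
    nlinarith [mul_nonneg hδ.le (sq_nonneg x)]
  have h6 : 0 < y * (x' + 2 * ε * y') := mul_pos hy hp'
  have h7 : 0 < δ * y ^ 2 := by positivity
  nlinarith

theorem fin {ε δ x y x' y' : ℝ} (hε : 0 < ε) (hε' : ε ≤ 1 / 10) (hδ : 0 < δ)
    (hδ' : 200 * δ ≤ ε) (h1 : |x' - x| ≤ 100 * δ * (|x| + |y|))
    (h2 : |y' - y| ≤ 100 * δ * (|x| + |y|)) (hp : 0 ≤ x + 2 * ε * y)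
    (hp' : x' + 2 * ε * y' ≤ 0) : |x + 2 * ε * y| ≤ ε * |y| := by
  have e1 : |x + 2 * ε * y| ≤ 120 * δ * (|x| + |y|) := by
    rw [abs_of_nonneg hp]
    have h3 : x - x' ≤ 100 * δ * (|x| + |y|) := by
      have := neg_abs_le (x' - x)
      linarith
    have h4 : y - y' ≤ 100 * δ * (|x| + |y|) := by
      have := neg_abs_le (y' - y)
      linarith
    have h5 : 2 * ε * (y - y') ≤ 2 * ε * (100 * δ * (|x| + |y|)) :=
      mul_le_mul_of_nonneg_left h4 (by linarith)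
    have h6 : 2 * ε * (100 * δ * (|x| + |y|)) ≤ 1 / 5 * (100 * δ * (|x| + |y|)) :=
      mul_le_mul_of_nonneg_right (by linarith) (by positivity)
    nlinarith
  have e2 : |x| ≤ |x + 2 * ε * y| + 1 / 5 * |y| := by
    have h3 := abs_add_le (x + 2 * ε * y) (-(2 * ε * y))
    rw [add_neg_cancel_right, abs_neg, abs_mul, abs_of_pos (show 0 < 2 * ε by linarith)] at h3
    have h4 : 2 * ε * |y| ≤ 1 / 5 * |y| :=
      mul_le_mul_of_nonneg_right (by linarith) (abs_nonneg y)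
    linarith
  have e3 : 120 * δ * (|x| + |y|) ≤ 120 * δ * (|x + 2 * ε * y| + 6 / 5 * |y|) :=
    mul_le_mul_of_nonneg_left (by linarith) (by positivity)
  have e4 : 120 * δ * |x + 2 * ε * y| ≤ 6 / 100 * |x + 2 * ε * y| :=
    mul_le_mul_of_nonneg_right (by linarith) (abs_nonneg _)
  have e5 : 200 * δ * |y| ≤ ε * |y| := mul_le_mul_of_nonneg_right hδ' (abs_nonneg y)
  have e6 : 0 ≤ δ * |y| := by positivity
  nlinarith

theorem conc {ε x y : ℝ} (hε : 0 < ε) (h : |x + 2 * ε * y| ≤ ε * |y|)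
    (h0 : 0 < x ^ 2 + y ^ 2) : y ≠ 0 ∧ ε ≤ -(x / y) ∧ -(x / y) ≤ 3 * ε := by
  have hy : y ≠ 0 := by
    rintro rfl
    rw [mul_zero, add_zero, abs_zero, mul_zero] at h
    have := abs_nonpos_iff.1 h
    rw [this] at h0
    norm_num at h0
  have h1 : |(x + 2 * ε * y) / y| ≤ ε := by
    rw [abs_div, div_le_iff₀ (abs_pos.2 hy)]
    exact h
  have h2 : (x + 2 * ε * y) / y = x / y + 2 * ε := by
    field_simp
  rw [h2, abs_le] at h1
  exact ⟨hy, by linarith, by linarith⟩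

theorem core (ε δ : ℝ) (N : ℕ) (a b : ℕ → ℝ) (hε : 0 < ε) (hε' : ε ≤ 1 / 10) (hδ : 0 < δ)
    (hδ' : 200 * δ ≤ ε) (hN : 10 / δ ^ 2 + 3 ≤ N) (h0 : a 0 ≠ 0 ∨ b 0 ≠ 0)
    (h : ∀ j < N, |a (j + 1) - a j| ≤ 100 * δ * (|a j| + |b j|) ∧
      |b (j + 1) - b j| ≤ 100 * δ * (|a j| + |b j|) ∧
      δ * (a j ^ 2 + b j ^ 2) ≤ a j * b (j + 1) - b j * a (j + 1))
    (hp0 : 0 ≤ a 0 + 2 * ε * b 0) :
    ∃ j ≤ N, b j ≠ 0 ∧ ε ≤ -(a j / b j) ∧ -(a j / b j) ≤ 3 * ε := by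
  have hnz := nonzero hδ h0 (fun j hj => (h j hj).2.2)
  by_cases hA : ∃ j ≤ N, a j + 2 * ε * b j = 0
  · obtain ⟨j, hj, h1⟩ := hA
    refine ⟨j, hj, conc hε ?_ (hnz j hj)⟩
    rw [h1, abs_zero]
    positivity
  by_cases hB : ∃ j < N, 0 ≤ a j + 2 * ε * b j ∧ a (j + 1) + 2 * ε * b (j + 1) ≤ 0
  · obtain ⟨j, hj, h1, h2⟩ := hB
    exact ⟨j, hj.le, conc hε (fin hε hε' hδ hδ' (h j hj).1 (h j hj).2.1 h1 h2) (hnz j hj.le)⟩
  exfalso
  have hpos : ∀ j ≤ N, 0 < a j + 2 * ε * b j := by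
    intro j
    induction j with
    | zero =>
      intro h1
      exact lt_of_le_of_ne hp0 fun h2 => hA ⟨0, h1, h2.symm⟩
    | succ j ih =>
      intro h1
      by_contra hcon
      exact hB ⟨j, by omega, (ih (by omega)).le, not_lt.1 hcon⟩
  have hbd : ∀ j < N, |a (j + 1) - a j| ≤ 1 / 20 * (|a j| + |b j|) ∧
      |b (j + 1) - b j| ≤ 1 / 20 * (|a j| + |b j|) :=
    fun j hj => bd hε' hδ hδ' (h j hj).1 (h j hj).2.1
  have hN3 : (3 : ℝ) ≤ N := by
    have : 0 ≤ 10 / δ ^ 2 := by positivity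
    linarith
  have hN3' : 3 ≤ N := by exact_mod_cast hN3
  have hr : ∀ m : ℕ, 1 + m ≤ N →
      -(2 / δ) + m * (δ / 2) ≤ b (1 + m) / (a (1 + m) + 2 * ε * b (1 + m)) := by
    intro m
    induction m with
    | zero =>
      intro h1
      have := first hε hε' hδ hδ' (hbd 0 (by omega)).1 (hbd 0 (by omega)).2
        (h 0 (by omega)).2.2 (hpos 0 (by omega)) (hpos 1 (by omega))
      simpa using this
    | succ m ih =>
      intro h1
      have h2 := ih (by omega)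
      have h3 := incr hε hε' hδ (hbd (1 + m) (by omega)).1 (hbd (1 + m) (by omega)).2
        (h (1 + m) (by omega)).2.2 (hpos (1 + m) (by omega)) (hpos (1 + m + 1) (by omega))
      rw [show 1 + (m + 1) = 1 + m + 1 by omega]
      push_cast
      linarith
  obtain ⟨m, hm⟩ : ∃ m : ℕ, m = ⌈10 / δ ^ 2⌉₊ := ⟨_, rfl⟩
  have hm1 : 10 / δ ^ 2 ≤ m := by
    rw [hm]
    exact Nat.le_ceil _
  have hm2 : (m : ℝ) < 10 / δ ^ 2 + 1 := by
    rw [hm]
    exact Nat.ceil_lt_add_one (by positivity)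
  have hm3 : m + 2 < N := by
    have : ((m + 2 : ℕ) : ℝ) < N := by
      push_cast
      linarith
    exact_mod_cast this
  have h1 := hr m (by omega)
  have h2 : 5 / δ ≤ m * (δ / 2) := by
    have h3 : 10 / δ ^ 2 * (δ / 2) ≤ m * (δ / 2) :=
      mul_le_mul_of_nonneg_right hm1 (by positivity)
    have h4 : 10 / δ ^ 2 * (δ / 2) = 5 / δ := by
      field_simp
      norm_num
    linarith
  have h3 : 3 / δ ≤ b (1 + m) / (a (1 + m) + 2 * ε * b (1 + m)) := by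
    have h4 : -(2 / δ) + 5 / δ = 3 / δ := by ring
    linarith
  exact last hε hε' hδ hδ' (hbd (1 + m) (by omega)).2 (h (1 + m) (by omega)).2.2
    (hpos (1 + m) (by omega)) (hpos (1 + m + 1) (by omega)) h3

theorem proof_SCH : S_SCH := by
  intro ε δ N a b hε hε' hδ hδ' hN h0 h
  by_cases hp : 0 ≤ a 0 + 2 * ε * b 0
  · exact core ε δ N a b hε hε' hδ hδ' hN h0 h hp
  · obtain ⟨j, hj, h1, h2, h3⟩ := core ε δ N (fun j => -(a j)) (fun j => -(b j)) hε hε' hδ hδ' hN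
      (h0.imp (fun h => neg_ne_zero.2 h) (fun h => neg_ne_zero.2 h)) (fun j hj => by
        obtain ⟨h1, h2, h3⟩ := h j hj
        refine ⟨?_, ?_, ?_⟩
        · show |-(a (j + 1)) - -(a j)| ≤ 100 * δ * (|-(a j)| + |-(b j)|)
          rw [abs_neg, abs_neg, show -(a (j + 1)) - -(a j) = -(a (j + 1) - a j) by ring, abs_neg]
          exact h1
        · show |-(b (j + 1)) - -(b j)| ≤ 100 * δ * (|-(a j)| + |-(b j)|)
          rw [abs_neg, abs_neg, show -(b (j + 1)) - -(b j) = -(b (j + 1) - b j) by ring, abs_neg]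
          exact h2
        · show δ * ((-(a j)) ^ 2 + (-(b j)) ^ 2) ≤ -(a j) * -(b (j + 1)) - -(b j) * -(a (j + 1))
          nlinarith) (by
        show 0 ≤ -(a 0) + 2 * ε * -(b 0)
        linarith [not_le.1 hp])
    refine ⟨j, hj, neg_ne_zero.1 h1, ?_, ?_⟩
    · rw [neg_div_neg_eq] at h2
      exact h2
    · rw [neg_div_neg_eq] at h3
      exact h3

end Pool.Agent.H921.SfSCH
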