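import Pool.Agent.H979.FR.Stm

/-!
# Task BALL of project FR (helper921 for helper979): balls of a locally finite connected graph
-/

set_option autoImplicit false

open Pool.Agent.H979.FR

namespace Pool.Agent.H921

section fr

variable {V : Type} (G : SimpleGraph V)

/-- a predecessor of a vertex on a geodesic from `o` -/
theorem fr_pred (hc : G.Connected) {o v : V} {n : ℕ} (h : G.dist o v = n + 1) :
    ∃ w, G.Adj w v ∧ G.dist o w = n := by
  obtain ⟨p, hp⟩ := hc.exists_walk_length_eq_dist v o
  rw [G.dist_comm, h] at hp
  cases p with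
  | nil => simp at hp
  | cons hadj q =>
    rename_i w
    refine ⟨w, hadj.symm, ?_⟩
    rw [SimpleGraph.Walk.length_cons] at hp
    have h1 : G.dist o w ≤ n := by
      rw [G.dist_comm]
      exact (G.dist_le q).trans (by omega)
    have h2 : G.dist o v ≤ G.dist o w + G.dist w v := hc.dist_triangle
    have h3 : G.dist w v = 1 := SimpleGraph.dist_eq_one_iff_adj.mpr hadj.symm
    omega

theorem fr_down (hc : G.Connected) (o : V) (m : ℕ) :
    ∀ y, G.dist o y = m → ∀ k, k ≤ m → ∃ z, G.dist o z = k := by
  induction m with
  | zero =>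
    intro y hy k hk
    exact ⟨y, by omega⟩
  | succ m ih =>
    intro y hy k hk
    by_cases hk' : k = m + 1
    · exact ⟨y, by rw [hy, hk']⟩
    · obtain ⟨w, -, hw⟩ := fr_pred G hc hy
      exact ih w hw k (by omega)

theorem fr_finite [G.LocallyFinite] (hc : G.Connected) (o : V) (n : ℕ) :
    (ball G o n).Finite := by
  induction n with
  | zero =>
    refine (Set.finite_singleton o).subset ?_
    intro v hv
    have h1 : G.dist o v = 0 := Nat.le_zero.mp hv
    exact (hc.dist_eq_zero_iff.mp h1).symm
  | succ n ih =>
    have h1 : (ball G o n ∪ ⋃ w ∈ ball G o n, G.neighborSet w).Finite := by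
      refine ih.union (ih.biUnion (fun w _ => ?_))
      exact Set.toFinite _
    refine h1.subset ?_
    intro v hv
    have hv' : G.dist o v ≤ n + 1 := hv
    rcases Nat.lt_or_ge (G.dist o v) (n + 1) with h | h
    · exact Or.inl (Nat.lt_succ_iff.mp h)
    · right
      obtain ⟨w, hw1, hw2⟩ := fr_pred G hc (le_antisymm hv' h)
      exact Set.mem_biUnion (show w ∈ ball G o n from hw2.le) hw1

theorem fr_dist_le (φ : G ≃g G) (hc : G.Connected) (x y : V) :
    G.dist (φ x) (φ y) ≤ G.dist x y := by
  obtain ⟨p, hp⟩ := hc.exists_walk_length_eq_dist x y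
  rw [← hp]
  have h1 := G.dist_le (p.map φ.toHom)
  rw [SimpleGraph.Walk.length_map] at h1
  exact h1

theorem fr_dist_iso (φ : G ≃g G) (hc : G.Connected) (x y : V) :
    G.dist (φ x) (φ y) = G.dist x y := by
  apply le_antisymm (fr_dist_le G φ hc x y)
  have h1 := fr_dist_le G φ.symm hc (φ x) (φ y)
  simpa using h1

end fr

theorem fr_ball : S_BALL := by
  intro V G _ hc
  refine ⟨fun o n => fr_finite G hc o n, ?_, ?_⟩
  · intro hinf o n
    have h1 : ∀ k : ℕ, ∃ y, G.dist o y = k := by
      intro k
      by_contra hno
      apply Set.infinite_univ (α := V)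
      refine (fr_finite G hc o k).subset ?_
      intro y _
      by_contra hy
      have hy' : k ≤ G.dist o y := by
        have : ¬ G.dist o y ≤ k := hy
        omega
      exact hno (fr_down G hc o (G.dist o y) y rfl k hy')
    refine ⟨h1 n, ?_⟩
    have h2 : (Set.Iic n).ncard ≤ ((fun v => G.dist o v) '' ball G o n).ncard := by
      apply Set.ncard_le_ncard _ ((fr_finite G hc o n).image _)
      intro k hk
      obtain ⟨y, hy⟩ := h1 k
      refine ⟨y, ?_, hy⟩
      have : G.dist o y ≤ n := by rw [hy]; exact hk
      exact this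
    have h3 : ((fun v => G.dist o v) '' ball G o n).ncard ≤ (ball G o n).ncard :=
      Set.ncard_image_le (fr_finite G hc o n)
    have h4 : (Set.Iic n).ncard = n + 1 := by
      rw [Set.ncard_eq_toFinset_card']
      simp
    omega
  · intro ht x y n
    obtain ⟨φ, hφ⟩ := ht x y
    have h1 : ball G y n = φ '' ball G x n := by
      ext v
      constructor
      · intro hv
        refine ⟨φ.symm v, ?_, by simp⟩
        have h2 : G.dist x (φ.symm v) ≤ n := by
          have e : φ (φ.symm v) = v := by simp
          rw [← fr_dist_iso G φ hc, hφ, e]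
          exact hv
        exact h2
      · rintro ⟨w, hw, rfl⟩
        have h2 : G.dist y (φ w) ≤ n := by
          rw [← hφ, fr_dist_iso G φ hc]
          exact hw
        exact h2
    rw [h1]
    exact (Set.ncard_image_of_injective _ φ.injective).symm

theorem fr_cnt : S_CNT := by
  intro V G _ hc
  obtain ⟨o⟩ := hc.nonempty
  rw [← Set.countable_univ_iff]
  have h1 : (⋃ n : ℕ, ball G o n).Countable :=
    Set.countable_iUnion (fun n => (fr_finite G hc o n).countable)
  refine h1.mono ?_
  intro v _
  exact Set.mem_iUnion.mpr ⟨G.dist o v, le_refl (G.dist o v)⟩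

end Pool.Agent.H921
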