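import Pool.Agent.H867.FT.Stm

/-!
# EXC and LOW for helper867's project FT (MP_7dd379_ag)
-/

namespace Pool.Agent.H921.FT867EXCLOW

open Pool.Agent.H867.FT

/-- the coordinates of the last ray -/
def lastRay (d : ℕ) : Fin d → ℤ := fun j =>
  if (j : ℕ) = 0 then 2 else if (j : ℕ) = 1 then 1 else if (j : ℕ) = 2 then -1 else 0

theorem lastRay_eq (e : ℕ) : lastRay (e + 3) =
    (2 : ℤ) • Pi.single (⟨0, by omega⟩ : Fin (e + 3)) (1 : ℤ) +
      Pi.single (⟨1, by omega⟩ : Fin (e + 3)) (1 : ℤ) - Pi.single (⟨2, by omega⟩ : Fin (e + 3)) (1 : ℤ) := by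
  funext j
  simp only [lastRay, Pi.add_apply, Pi.sub_apply, Pi.smul_apply, Pi.single_apply, Fin.ext_iff,
    smul_eq_mul]
  by_cases h0 : (j : ℕ) = 0
  · simp [h0]
  · by_cases h1 : (j : ℕ) = 1
    · simp [h1]
    · by_cases h2 : (j : ℕ) = 2
      · simp [h2]
      · simp [h0, h1, h2]

theorem lastRay_dot (e : ℕ) (u : Fin (e + 3) → ℤ) : lastRay (e + 3) ⬝ᵥ u =
    2 * u ⟨0, by omega⟩ + u ⟨1, by omega⟩ - u ⟨2, by omega⟩ := by
  rw [lastRay_eq, sub_dotProduct, add_dotProduct, smul_dotProduct, single_dotProduct,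
    single_dotProduct, single_dotProduct]
  simp

/-- the rays of the extremal cone -/
def ray (d : ℕ) : Fin (d + 1) → (Fin d → ℤ) :=
  Fin.snoc (α := fun _ => Fin d → ℤ) (fun i : Fin d => Pi.single i (1 : ℤ)) (lastRay d)

theorem ray_castSucc (d : ℕ) (i : Fin d) : ray d i.castSucc = Pi.single i 1 := by
  simp [ray]

theorem ray_last (d : ℕ) : ray d (Fin.last d) = lastRay d := by
  simp [ray]

theorem exc : S_EXC := by
  intro d hd
  obtain ⟨e, rfl⟩ : ∃ e, d = e + 3 := ⟨d - 3, by omega⟩
  refine ⟨⟨ray (e + 3), ?_, ?_, ?_⟩, ?_, ?_, ?_⟩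
  · intro u hu
    funext i
    have := hu i.castSucc
    rw [ray_castSucc, single_dotProduct, one_mul] at this
    exact this
  · intro i k w
    refine Fin.lastCases ?_ (fun i => ?_) i
    · intro h
      rw [ray_last] at h
      have h1 := congrFun h ⟨1, by omega⟩
      simp [lastRay] at h1
      exact IsUnit.of_mul_eq_one _ h1.symm
    · intro h
      rw [ray_castSucc] at h
      have h1 := congrFun h i
      simp at h1
      exact IsUnit.of_mul_eq_one _ h1.symm
  · intro i
    refine Fin.lastCases ?_ (fun i => ?_) i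
    · refine ⟨fun j => if (j : ℕ) = 2 then 3 else 1, ?_, ?_⟩
      · rw [ray_last, lastRay_dot]
        simp
      · intro j
        refine Fin.lastCases ?_ (fun j => ?_) j
        · intro h
          exact absurd rfl h
        · intro _
          rw [ray_castSucc, single_dotProduct]
          split_ifs <;> norm_num
    · refine ⟨fun j => if j = i then 0 else if (i : ℕ) = 0 ∧ (j : ℕ) = 1 then 2 else 1, ?_, ?_⟩
      · rw [ray_castSucc, single_dotProduct]
        simp
      · intro j
        refine Fin.lastCases ?_ (fun j => ?_) j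
        · intro _
          rw [ray_last, lastRay_dot]
          simp only [Fin.ext_iff]
          by_cases h0 : (i : ℕ) = 0
          · simp [h0]
          · by_cases h1 : (i : ℕ) = 1
            · simp [h1]
            · by_cases h2 : (i : ℕ) = 2
              · simp [h2]
              · have h0' : ¬ (0 = (i : ℕ)) := fun h => h0 h.symm
                have h1' : ¬ (1 = (i : ℕ)) := fun h => h1 h.symm
                have h2' : ¬ (2 = (i : ℕ)) := fun h => h2 h.symm
                simp [h0, h0', h1', h2']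
        · intro h
          have hj : j ≠ i := fun h' => h (by rw [h'])
          rw [ray_castSucc, single_dotProduct, one_mul, if_neg hj]
          split_ifs <;> norm_num
  · intro i
    exact ray_castSucc _ i
  · intro j
    show ray (e + 3) (Fin.last (e + 3)) j = _
    rw [ray_last]
    rfl
  · intro r m hr
    by_contra hcon
    push Not at hcon
    have h1 : ∀ i : Fin (e + 3), m i = r := by
      intro i
      have := hcon i.castSucc
      change ray (e + 3) i.castSucc ⬝ᵥ m = r at this
      rw [ray_castSucc, single_dotProduct, one_mul] at this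
      exact this
    have h2 := hcon (Fin.last _)
    change ray (e + 3) (Fin.last _) ⬝ᵥ m = r at h2
    rw [ray_last, lastRay_dot, h1, h1, h1] at h2
    have : (r : ℤ) = 0 := by linarith
    omega

/-! ## LOW -/

variable {d n : ℕ} (C : Cone d n) (K : Type) [Field K]

/-- `x ^ u` is a monomial of order at least `N` -/
def Lv (N : ℕ) (u : Fin d → ℤ) : Prop :=
  ∃ h : u ∈ C.S, AddMonoidAlgebra.single (⟨u, h⟩ : C.S) (1 : K) ∈ (C.maxIdeal K) ^ N

theorem Lv.add {N N' : ℕ} {u u' : Fin d → ℤ} (h : Lv C K N u) (h' : Lv C K N' u') :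
    Lv C K (N + N') (u + u') := by
  obtain ⟨a, b⟩ := h
  obtain ⟨a', b'⟩ := h'
  refine ⟨C.S.add_mem a a', ?_⟩
  have e : AddMonoidAlgebra.single (⟨u + u', C.S.add_mem a a'⟩ : C.S) (1 : K) =
      AddMonoidAlgebra.single (⟨u, a⟩ : C.S) (1 : K) * AddMonoidAlgebra.single (⟨u', a'⟩ : C.S) (1 : K) := by
    rw [AddMonoidAlgebra.single_mul_single, one_mul]
    rfl
  rw [e, pow_add]
  exact Ideal.mul_mem_mul b b'

theorem Lv.zero : Lv C K 0 0 := by
  refine ⟨C.S.zero_mem, ?_⟩
  rw [pow_zero, Ideal.one_eq_top]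
  trivial

theorem Lv.one {u : Fin d → ℤ} (h : u ∈ C.S) (h0 : u ≠ 0) : Lv C K 1 u := by
  refine ⟨h, ?_⟩
  rw [pow_one]
  unfold Cone.maxIdeal
  rw [RingHom.mem_ker]
  show C.aug K _ = 0
  rw [Cone.aug_eq_lift]
  rw [AddMonoidAlgebra.lift_single]
  have : (⟨u, h⟩ : C.S) ≠ 0 := fun h' => h0 (congrArg Subtype.val h')
  simp [this]

theorem Lv.smul {N : ℕ} {u : Fin d → ℤ} (h : Lv C K N u) (k : ℕ) : Lv C K (k * N) (k • u) := by
  induction k with
  | zero =>
    rw [zero_mul, zero_smul]
    exact Lv.zero C K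
  | succ k ih =>
    rw [add_mul, one_mul, succ_nsmul]
    exact ih.add C K h

theorem Lv.sum {ι : Type} (s : Finset ι) {N : ι → ℕ} {u : ι → (Fin d → ℤ)}
    (h : ∀ i, Lv C K (N i) (u i)) : Lv C K (∑ i ∈ s, N i) (∑ i ∈ s, u i) := by
  classical
  induction s using Finset.induction_on with
  | empty =>
    rw [Finset.sum_empty, Finset.sum_empty]
    exact Lv.zero C K
  | insert a s ha ih =>
    rw [Finset.sum_insert ha, Finset.sum_insert ha]
    exact (h a).add C K ih

theorem low : S_LOW := by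
  intro d hd C h1 h2 K _ q hq
  obtain ⟨e, rfl⟩ : ∃ e, d = e + 3 := ⟨d - 3, by omega⟩
  have h3 : C.v (Fin.last (e + 3)) = lastRay (e + 3) := funext h2
  have hmem : ∀ u : Fin (e + 3) → ℤ, (∀ i, 0 ≤ u i) →
      0 ≤ 2 * u ⟨0, by omega⟩ + u ⟨1, by omega⟩ - u ⟨2, by omega⟩ → u ∈ C.S := by
    intro u hu hu'
    rw [C.mem_S]
    intro i
    refine Fin.lastCases ?_ (fun i => ?_) i
    · rw [h3, lastRay_dot]
      exact hu'
    · rw [h1, single_dotProduct, one_mul]
      exact hu i
  have hs0 : ∀ i j : Fin (e + 3), 0 ≤ (Pi.single i (1 : ℤ) : Fin (e + 3) → ℤ) j := by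
    intro i j
    rw [Pi.single_apply]
    split_ifs <;> norm_num
  set a : Fin (e + 3) → ℤ := Pi.single ⟨1, by omega⟩ 1 + Pi.single ⟨2, by omega⟩ 1 with ha
  set b : Fin (e + 3) → ℤ := Pi.single ⟨0, by omega⟩ 1 with hb
  set c : Fin e → (Fin (e + 3) → ℤ) := fun i => Pi.single ⟨i + 3, by omega⟩ 1 with hc
  have la : Lv C K 1 a := by
    apply Lv.one
    · apply hmem
      · intro i
        exact add_nonneg (hs0 _ _) (hs0 _ _)
      · simp [ha, Fin.ext_iff]
    · intro h
      have := congrFun h ⟨1, by omega⟩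
      simp [ha, Pi.single_apply, Fin.ext_iff] at this
  have lb : Lv C K 1 b := by
    apply Lv.one
    · apply hmem
      · intro i
        exact hs0 _ _
      · simp [hb, Pi.single_apply, Fin.ext_iff]
    · intro h
      have := congrFun h ⟨0, by omega⟩
      simp [hb, Pi.single_apply, Fin.ext_iff] at this
  have lc : ∀ i, Lv C K 1 (c i) := by
    intro i
    apply Lv.one
    · apply hmem
      · intro j
        exact hs0 _ _
      · simp [hc, Pi.single_apply, Fin.ext_iff]
    · intro h
      have := congrFun h ⟨i + 3, by omega⟩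
      simp [hc, Pi.single_apply, Fin.ext_iff] at this
  have lu := ((la.smul C K (q - 1)).add C K (lb.smul C K ((q - 1) / 2))).add C K
    (Lv.sum C K Finset.univ (fun i => (lc i).smul C K (q - 1)))
  have hsum : ∀ j : Fin (e + 3), (∑ i : Fin e, (q - 1) • c i) j =
      if (j : ℕ) < 3 then 0 else ((q - 1 : ℕ) : ℤ) := by
    intro j
    rw [Finset.sum_apply]
    split_ifs with hj
    · apply Finset.sum_eq_zero
      intro i _
      have h4 : j ≠ (⟨i + 3, by omega⟩ : Fin (e + 3)) := by
        intro h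
        have := congrArg Fin.val h
        simp at this
        omega
      simp [hc, h4]
    · have hj' : (j : ℕ) < e + 3 := j.2
      rw [Finset.sum_eq_single (⟨j - 3, by omega⟩ : Fin e)]
      · have h4 : (⟨(j : ℕ) - 3 + 3, by omega⟩ : Fin (e + 3)) = j := by
          apply Fin.ext
          simp
          omega
        simp [hc, h4]
      · intro i _ hi
        have h4 : j ≠ (⟨i + 3, by omega⟩ : Fin (e + 3)) := by
          intro h
          apply hi
          apply Fin.ext
          have := congrArg Fin.val h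
          simp at this
          simp
          omega
        simp [hc, h4]
      · intro h
        exact absurd (Finset.mem_univ _) h
  have hU : ∀ j : Fin (e + 3), ((q - 1) • a + ((q - 1) / 2) • b + ∑ i : Fin e, (q - 1) • c i) j =
      if (j : ℕ) = 0 then (((q - 1) / 2 : ℕ) : ℤ) else ((q - 1 : ℕ) : ℤ) := by
    intro j
    rw [Pi.add_apply, hsum]
    by_cases h0 : (j : ℕ) = 0
    · simp [ha, hb, h0, Pi.single_apply, Fin.ext_iff]
    · by_cases h1 : (j : ℕ) = 1
      · simp [ha, hb, h1, Pi.single_apply, Fin.ext_iff]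
      · by_cases h2 : (j : ℕ) = 2
        · simp [ha, hb, h2, Pi.single_apply, Fin.ext_iff]
        · have h3 : ¬ ((j : ℕ) < 3) := by omega
          simp [ha, hb, h0, h1, h2, h3, Pi.single_apply, Fin.ext_iff]
  have hq1 : ((q - 1 : ℕ) : ℤ) = (q : ℤ) - 1 := by
    rw [Nat.cast_sub hq]
    simp
  have hq2 : (((q - 1) / 2 : ℕ) : ℤ) * 2 ≤ ((q - 1 : ℕ) : ℤ) := by
    have : (q - 1) / 2 * 2 ≤ q - 1 := Nat.div_mul_le_self _ _
    exact_mod_cast this
  have hq3 : 0 ≤ (((q - 1) / 2 : ℕ) : ℤ) := Int.natCast_nonneg _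
  obtain ⟨hu, hu'⟩ := lu
  refine ⟨⟨_, hu⟩, ?_, ?_⟩
  · intro i
    show C.v i ⬝ᵥ ((q - 1) • a + ((q - 1) / 2) • b + ∑ i : Fin e, (q - 1) • c i) ≤ _
    refine Fin.lastCases ?_ (fun i => ?_) i
    · rw [h3, lastRay_dot, hU, hU, hU]
      simp only [if_true]
      rw [if_neg (by norm_num), if_neg (by norm_num)]
      linarith
    · rw [h1, single_dotProduct, one_mul, hU]
      split_ifs <;> linarith
  · have e1 : (q - 1) * 1 + (q - 1) / 2 * 1 + ∑ _i : Fin e, (q - 1) * 1 =
        (e + 3 - 2) * (q - 1) + (q - 1) / 2 := by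
      rw [Finset.sum_const, Finset.card_univ, Fintype.card_fin]
      have : e + 3 - 2 = e + 1 := by omega
      rw [this, smul_eq_mul]
      ring
    rw [e1] at hu'
    exact hu'

end Pool.Agent.H921.FT867EXCLOW
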