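import Pool.Agent.H979.GW.StmB

/-!
# One step computations for the signed walk
-/

set_option autoImplicit false
set_option linter.unusedSectionVars false
set_option linter.unusedVariables false

open MeasureTheory ProbabilityTheory Filter Topology Set
open scoped ENNReal NNReal

namespace Pool.Agent.H921.GW

open Pool.Agent.H979.GW
open Pool.Agent.H979.QIP (P K V bm S)

section

variable {Λ : Type} [DecidableEq Λ] [Countable Λ]

theorem aesm (f : List Λ × Bool → ℝ) (μ : Measure (List Λ × Bool)) : AEStronglyMeasurable f μ :=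
  (measurable_of_countable f).aestronglyMeasurable

theorem integrable_sgc (ρ : ℝ) (ch : List Λ → Finset Λ) (f : List Λ × Bool → ℝ)
    (x : List Λ × Bool) : Integrable f (sgc ρ ch x) := by
  have hm : ∀ (v : List Λ) (s : Bool), Integrable f ((stp ρ ch v).map (fun w => (w, s))) := by
    intro v s
    rw [integrable_map_measure (aesm f _) (measurable_pairl s).aemeasurable]
    exact integrable_stp ρ ch v _
  obtain ⟨v, s⟩ := x
  cases v with
  | nil =>
    unfold sgc
    exact ((hm _ _).smul_measure (by simp)).add_measure ((hm _ _).smul_measure (by simp))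
  | cons a v => exact hm _ _

theorem integral_mapl (ρ : ℝ) (hρ : 0 < ρ) {ch : List Λ → Finset Λ} (h : (ch []).card ≠ 0)
    (f : List Λ × Bool → ℝ) (v : List Λ) (s : Bool) :
    ∫ y, f y ∂((stp ρ ch v).map (fun w => (w, s))) = Pop ρ ch (fun w => f (w, s)) v := by
  rw [integral_map (measurable_pairl s).aemeasurable (aesm f _)]
  exact integral_stp hρ h _ v

theorem integral_sgc_cons {ρ : ℝ} (hρ : 0 < ρ) {ch : List Λ → Finset Λ} (h : (ch []).card ≠ 0)
    (f : List Λ × Bool → ℝ) (a : Λ) (v : List Λ) (s : Bool) :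
    ∫ y, f y ∂(sgc ρ ch (a :: v, s)) =
      (ρ * f (v, s) + ∑ b ∈ ch (a :: v), f (b :: a :: v, s)) / (ρ + (ch (a :: v)).card) := by
  show ∫ y, f y ∂((stp ρ ch (a :: v)).map (fun w => (w, s))) = _
  rw [integral_mapl ρ hρ h, Pop_cons]

theorem integral_sgc_nil {ρ : ℝ} (hρ : 0 < ρ) {ch : List Λ → Finset Λ} (h : (ch []).card ≠ 0)
    (f : List Λ × Bool → ℝ) (s : Bool) :
    ∫ y, f y ∂(sgc ρ ch ([], s)) =
      (∑ c ∈ ch [], (f ([c], true) + f ([c], false)) / 2) / (ch []).card := by
  show ∫ y, f y ∂((2⁻¹ : ℝ≥0∞) • (stp ρ ch []).map (fun w => (w, true)) +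
      (2⁻¹ : ℝ≥0∞) • (stp ρ ch []).map (fun w => (w, false))) = _
  have hm : ∀ (s : Bool), Integrable f ((stp ρ ch []).map (fun w => (w, s))) := by
    intro s
    rw [integrable_map_measure (aesm f _) (measurable_pairl s).aemeasurable]
    exact integrable_stp ρ ch [] _
  rw [integral_add_measure ((hm _).smul_measure (by simp)) ((hm _).smul_measure (by simp)),
    integral_smul_measure, integral_smul_measure, integral_mapl ρ hρ h, integral_mapl ρ hρ h,
    Pop_nil, Pop_nil]
  have e : (2⁻¹ : ℝ≥0∞).toReal = 2⁻¹ := by simp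
  rw [e, smul_eq_mul, smul_eq_mul, ← Finset.sum_div, Finset.sum_add_distrib]
  ring

/-- the sign -/
def sg (s : Bool) : ℝ := if s then 1 else -1

theorem sg_sq (s : Bool) : sg s ^ 2 = 1 := by
  unfold sg
  split_ifs <;> norm_num

theorem Sg_eq (W : List Λ → ℝ) (v : List Λ) (s : Bool) : Sg W (v, s) = sg s * Sf W v := by
  unfold Sg sg
  cases s <;> simp

theorem xi_up {ch : List Λ → Finset Λ} (W : List Λ → ℝ) {v : List Λ} (hv : InT ch v) (b : Λ)
    (s : Bool) : xi ch W (v, s) (b :: v, s) = sg s * W (b :: v) := by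
  unfold xi
  rw [if_pos hv, Sg_eq, Sg_eq]
  show sg s * (W (b :: v) + Sf W v) - sg s * Sf W v = _
  ring

theorem xi_down {ch : List Λ → Finset Λ} (W : List Λ → ℝ) {a : Λ} {v : List Λ}
    (hv : InT ch (a :: v)) (s : Bool) :
    xi ch W (a :: v, s) (v, s) = -(sg s * W (a :: v)) := by
  unfold xi
  rw [if_pos hv, Sg_eq, Sg_eq]
  show sg s * Sf W v - sg s * (W (a :: v) + Sf W v) = _
  ring

theorem xi_root {ch : List Λ → Finset Λ} (W : List Λ → ℝ) (b : Λ) (s s' : Bool) :
    xi ch W ([], s) ([b], s') = sg s' * W [b] := by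
  unfold xi
  have h : InT ch ([] : List Λ) := trivial
  rw [if_pos h, Sg_eq, Sg_eq]
  show sg s' * (W [b] + 0) - sg s * 0 = _
  ring

theorem tru_neg {L : ℝ} (hL : 0 ≤ L) (x : ℝ) : tru L (-x) = - tru L x := by
  unfold tru
  rcases le_total x L with h1 | h1 <;> rcases le_total (-L) x with h2 | h2
  · rw [min_eq_right h1, max_eq_right h2, min_eq_right (by linarith), max_eq_right (by linarith)]
  · rw [min_eq_right h1, max_eq_left h2, min_eq_left (by linarith), max_eq_right (by linarith)]
    ring
  · rw [min_eq_left h1, min_eq_right (by linarith : -x ≤ L), max_eq_left (by linarith : -x ≤ -L),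
      max_eq_right (by linarith : -L ≤ L)]
  · have h3 : L = 0 := by linarith
    have h4 : x = 0 := by linarith
    subst h3 h4
    simp

theorem tru_sg {L : ℝ} (hL : 0 ≤ L) (s : Bool) (x : ℝ) : tru L (sg s * x) = sg s * tru L x := by
  unfold sg
  split_ifs
  · simp
  · rw [neg_one_mul, neg_one_mul, tru_neg hL]

theorem tru_zero (x : ℝ) : tru 0 x = 0 := by
  unfold tru
  rw [neg_zero]
  rcases le_total x 0 with h | h
  · rw [min_eq_right h, max_eq_left h]
  · rw [min_eq_left h, max_eq_left le_rfl]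

theorem step_cons {ρ : ℝ} (hρ : 0 < ρ) {ch : List Λ → Finset Λ} (h : (ch []).card ≠ 0)
    (W : List Λ → ℝ) (F : ℝ → ℝ) {a : Λ} {v : List Λ} (hv : InT ch (a :: v)) (s : Bool) :
    ∫ y, F (xi ch W (a :: v, s) y) ∂(sgc ρ ch (a :: v, s)) =
      (ρ * F (-(sg s * W (a :: v))) + ∑ b ∈ ch (a :: v), F (sg s * W (b :: a :: v))) /
        (ρ + (ch (a :: v)).card) := by
  rw [integral_sgc_cons hρ h, xi_down W hv]
  congr 2
  exact Finset.sum_congr rfl fun b _ => by rw [xi_up W hv]

theorem step_nil {ρ : ℝ} (hρ : 0 < ρ) {ch : List Λ → Finset Λ} (h : (ch []).card ≠ 0)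
    (W : List Λ → ℝ) (F : ℝ → ℝ) (s : Bool) :
    ∫ y, F (xi ch W ([], s) y) ∂(sgc ρ ch ([], s)) =
      (∑ c ∈ ch [], (F (W [c]) + F (-W [c])) / 2) / (ch []).card := by
  rw [integral_sgc_nil hρ h]
  congr 1
  refine Finset.sum_congr rfl fun b _ => ?_
  rw [xi_root, xi_root]
  simp [sg]

end

theorem gw_sgn : S_SGN := by
  intro Λ _ _ ρ hρ1 ch W hW hrec hroot
  have hρ : 0 < ρ := zero_lt_one.trans hρ1.out
  have hc : (ch []).card ≠ 0 := by
    intro h0
    have h1 := hrec [] trivial
    rw [Finset.card_eq_zero.1 h0, Finset.sum_empty] at h1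
    have := mul_pos hρ hroot
    linarith
  have hV : ∀ x, V (sgc ρ ch) (xi ch W) x =
      ENNReal.ofReal (∫ y, xi ch W x y ^ 2 ∂(sgc ρ ch x)) := by
    intro x
    unfold V
    rw [ofReal_integral_eq_lintegral_ofReal (integrable_sgc ρ ch _ x)
      (Eventually.of_forall fun y => sq_nonneg _)]
  refine ⟨?_, ?_, ?_, ?_⟩
  · intro x
    rw [hV]
    exact ENNReal.ofReal_ne_top
  · rintro ⟨v, s⟩
    unfold bm
    by_cases hv : InT ch v
    · cases v with
      | nil =>
        rw [step_nil hρ hc W (fun t => t) s]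
        simp
      | cons a v =>
        rw [step_cons hρ hc W (fun t => t) hv s, ← Finset.mul_sum, ← hrec _ hv]
        have : ρ * -(sg s * W (a :: v)) + sg s * (ρ * W (a :: v)) = 0 := by ring
        rw [this, zero_div]
    · have : ∀ y, xi ch W (v, s) y = 0 := by
        intro y
        unfold xi
        rw [if_neg hv]
      simp [this]
  · intro v s hv L
    have hL : (0 : ℝ) ≤ L := Nat.cast_nonneg L
    cases v with
    | nil =>
      constructor
      · have h1 : ∫ z, tru L (xi ch W ([], s) z) ∂(sgc ρ ch ([], s)) = 0 := by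
          rw [step_nil hρ hc W (fun t => tru L t) s]
          simp [tru_neg hL]
        rw [h1, step_nil hρ hc W (fun t => (tru L t - 0) ^ 2) s]
        show _ = (∑ c ∈ ch [], tru L (W [c]) ^ 2) / (ch []).card
        congr 1
        refine Finset.sum_congr rfl fun c _ => ?_
        rw [tru_neg hL]
        ring
      · rw [step_nil hρ hc W (fun t => (t - tru L t) ^ 2) s]
        show _ = (∑ c ∈ ch [], (W [c] - tru L (W [c])) ^ 2) / (ch []).card
        congr 1
        refine Finset.sum_congr rfl fun c _ => ?_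
        rw [tru_neg hL]
        ring
    | cons a v =>
      have hD : (0 : ℝ) < ρ + ((ch (a :: v)).card : ℝ) := by positivity
      have hs := sg_sq s
      constructor
      · have h1 : ∫ z, tru L (xi ch W (a :: v, s) z) ∂(sgc ρ ch (a :: v, s)) =
            sg s * ((∑ c ∈ ch (a :: v), tru L (W (c :: a :: v)) - ρ * tru L (W (a :: v))) /
              (ρ + (ch (a :: v)).card)) := by
          rw [step_cons hρ hc W (fun t => tru L t) hv s, tru_neg hL, tru_sg hL]
          have : ∀ b ∈ ch (a :: v), tru L (sg s * W (b :: a :: v)) =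
            sg s * tru L (W (b :: a :: v)) := fun b _ => tru_sg hL s _
          rw [Finset.sum_congr rfl this, ← Finset.mul_sum]
          ring
        rw [h1]
        set m : ℝ := (∑ c ∈ ch (a :: v), tru L (W (c :: a :: v)) - ρ * tru L (W (a :: v))) /
              (ρ + (ch (a :: v)).card) with hm
        have hmD : ∑ c ∈ ch (a :: v), tru L (W (c :: a :: v)) =
            m * (ρ + (ch (a :: v)).card) + ρ * tru L (W (a :: v)) := by
          rw [hm, div_mul_cancel₀ _ hD.ne']
          ring
        rw [step_cons hρ hc W (fun t => (tru L t - sg s * m) ^ 2) hv s]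
        show _ = (∑ c ∈ ch (a :: v), tru L (W (c :: a :: v)) ^ 2 + ρ * tru L (W (a :: v)) ^ 2) /
            (ρ + (ch (a :: v)).card) - m ^ 2
        have e1 : ∀ b ∈ ch (a :: v), (tru L (sg s * W (b :: a :: v)) - sg s * m) ^ 2 =
            tru L (W (b :: a :: v)) ^ 2 - 2 * m * tru L (W (b :: a :: v)) + m ^ 2 := by
          intro b _
          rw [tru_sg hL]
          linear_combination (tru L (W (b :: a :: v)) - m) ^ 2 * hs
        rw [Finset.sum_congr rfl e1, Finset.sum_add_distrib, Finset.sum_sub_distrib,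
          ← Finset.mul_sum, Finset.sum_const, nsmul_eq_mul, hmD]
        have e2 : (tru L (-(sg s * W (a :: v))) - sg s * m) ^ 2 =
            (tru L (W (a :: v)) + m) ^ 2 := by
          rw [tru_neg hL, tru_sg hL]
          linear_combination (tru L (W (a :: v)) + m) ^ 2 * hs
        rw [e2, eq_sub_iff_add_eq, div_add' _ _ _ hD.ne']
        congr 1
        ring
      · rw [step_cons hρ hc W (fun t => (t - tru L t) ^ 2) hv s]
        show _ = (∑ c ∈ ch (a :: v), (W (c :: a :: v) - tru L (W (c :: a :: v))) ^ 2 +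
          ρ * (W (a :: v) - tru L (W (a :: v))) ^ 2) / (ρ + (ch (a :: v)).card)
        congr 1
        have e1 : ∀ b ∈ ch (a :: v), (sg s * W (b :: a :: v) - tru L (sg s * W (b :: a :: v))) ^ 2 =
            (W (b :: a :: v) - tru L (W (b :: a :: v))) ^ 2 := by
          intro b _
          rw [tru_sg hL]
          linear_combination (W (b :: a :: v) - tru L (W (b :: a :: v))) ^ 2 * hs
        rw [Finset.sum_congr rfl e1, tru_neg hL, tru_sg hL]
        linear_combination ρ * (W (a :: v) - tru L (W (a :: v))) ^ 2 * hs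
  · intro v s hv
    rw [hV]
    congr 1
    cases v with
    | nil =>
      rw [step_nil hρ hc W (fun t => t ^ 2) s]
      show _ = (∑ c ∈ ch [], (W [c] - tru 0 (W [c])) ^ 2) / (ch []).card
      congr 1
      refine Finset.sum_congr rfl fun c _ => ?_
      rw [tru_zero]
      ring
    | cons a v =>
      have hs := sg_sq s
      rw [step_cons hρ hc W (fun t => t ^ 2) hv s]
      show _ = (∑ c ∈ ch (a :: v), (W (c :: a :: v) - tru 0 (W (c :: a :: v))) ^ 2 +
          ρ * (W (a :: v) - tru 0 (W (a :: v))) ^ 2) / (ρ + (ch (a :: v)).card)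
      congr 1
      have e1 : ∀ b ∈ ch (a :: v), (sg s * W (b :: a :: v)) ^ 2 =
          (W (b :: a :: v) - tru 0 (W (b :: a :: v))) ^ 2 := by
        intro b _
        rw [tru_zero]
        linear_combination (W (b :: a :: v)) ^ 2 * hs
      rw [Finset.sum_congr rfl e1, tru_zero]
      linear_combination ρ * (W (a :: v)) ^ 2 * hs

end Pool.Agent.H921.GW

namespace Pool.Agent.H921

theorem gw_sgn : Pool.Agent.H979.GW.S_SGN := Pool.Agent.H921.GW.gw_sgn

end Pool.Agent.H921
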