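import Mathlib
import Pool.Agent.H133.ZM.Stm

set_option autoImplicit false

namespace Pool.Agent.H921.ZM

open Pool.Agent.H133.ZM Finset

theorem t_ext2 : S_ext2 := by
  classical
  intro hdeg m hm V _ _ G hn hd Q hQ hQm
  -- the covered vertices
  set W : Finset V := Q.biUnion (fun e => e.toFinset) with hW
  have hWm : ∀ v, v ∈ W ↔ ∃ e ∈ Q, v ∈ e := by
    intro v
    simp [hW, Sym2.mem_toFinset]
  have hWc : W.card ≤ 2 * Q.card := by
    rw [mul_comm]
    refine Finset.card_biUnion_le_card_mul Q _ 2 ?_
    intro e _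
    rw [Sym2.card_toFinset]
    split_ifs <;> omega
  set k : ℕ := LL m - Q.card with hk
  have hLL : LL m = m + m / 2 := rfl
  let G' : SimpleGraph {v : V // v ∉ W} := G.comap Subtype.val
  have hcard : Fintype.card {v : V // v ∉ W} = Fintype.card V - W.card := by
    rw [Fintype.card_subtype_compl]
    simp
  have hdeg' : ∀ v : {v : V // v ∉ W}, k ≤ dg G' v := by
    intro v
    have h1 : (G.neighborSet v.1) ⊆ (Subtype.val '' (G'.neighborSet v)) ∪ (W : Set V) := by
      intro w hw
      by_cases hwW : w ∈ W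
      · exact Or.inr hwW
      · exact Or.inl ⟨⟨w, hwW⟩, hw, rfl⟩
    have h2 : dg G v.1 ≤ dg G' v + W.card := by
      unfold dg
      calc (G.neighborSet v.1).ncard
          ≤ ((Subtype.val '' (G'.neighborSet v)) ∪ (W : Set V)).ncard :=
            Set.ncard_le_ncard h1 (Set.toFinite _)
        _ ≤ (Subtype.val '' (G'.neighborSet v)).ncard + (W : Set V).ncard :=
            Set.ncard_union_le _ _
        _ = (G'.neighborSet v).ncard + W.card := by
            rw [Set.ncard_image_of_injective _ Subtype.val_injective, Set.ncard_coe_finset]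
    have h3 := hd v.1
    omega
  obtain ⟨M', hM', hM'c⟩ := hdeg {v : V // v ∉ W} G' k hdeg' (by
    rw [hcard]
    omega)
  have hinj : Function.Injective (Sym2.map (Subtype.val : {v : V // v ∉ W} → V)) :=
    Sym2.map.injective Subtype.val_injective
  set I : Finset (Sym2 V) := M'.image (Sym2.map (Subtype.val : {v : V // v ∉ W} → V)) with hI
  have hInW : ∀ e ∈ I, ∀ v ∈ e, v ∉ W := by
    intro e he v hv
    obtain ⟨e', _, rfl⟩ := Finset.mem_image.1 he
    obtain ⟨w, _, rfl⟩ := Sym2.mem_map.1 hv
    exact w.2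
  have hQW : ∀ e ∈ Q, ∀ v ∈ e, v ∈ W := fun e he v hv => (hWm v).2 ⟨e, he, hv⟩
  have hdis : Disjoint Q I := by
    rw [Finset.disjoint_left]
    intro e he heI
    have hv := Sym2.out_fst_mem e
    exact hInW e heI _ hv (hQW e he _ hv)
  refine ⟨Q ∪ I, ⟨?_, ?_⟩, Finset.subset_union_left, ?_⟩
  · intro e he
    rcases Finset.mem_union.1 he with h | h
    · exact hQ.1 e h
    · obtain ⟨e', he', rfl⟩ := Finset.mem_image.1 h
      have := hM'.1 e' he'
      induction e' using Sym2.ind with
      | _ a b => exact this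
  · intro e he f hf hef v hv hvf
    rcases Finset.mem_union.1 he with h | h <;> rcases Finset.mem_union.1 hf with h' | h'
    · exact hQ.2 e h f h' hef v hv hvf
    · exact hInW f h' v hvf (hQW e h v hv)
    · exact hInW e h v hv (hQW f h' v hvf)
    · obtain ⟨e', he', rfl⟩ := Finset.mem_image.1 h
      obtain ⟨f', hf', rfl⟩ := Finset.mem_image.1 h'
      obtain ⟨w, hw, rfl⟩ := Sym2.mem_map.1 hv
      obtain ⟨u, hu, huw⟩ := Sym2.mem_map.1 hvf
      have huw' : u = w := Subtype.val_injective huw
      subst huw'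
      refine hM'.2 e' he' f' hf' ?_ u hw hu
      intro hne
      exact hef (by rw [hne])
  · rw [Finset.card_union_of_disjoint hdis, hI, Finset.card_image_of_injective _ hinj, hM'c]
    omega

end Pool.Agent.H921.ZM
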